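import Pool.Agent.P.MP_84b56d_ag.Grp
import Pool.Agent.P.MP_84b56d_ag.Count

/-! Finitely many blocks of points such that every proper closed set is moved by one block. -/

open TopologicalSpace Pointwise

namespace Pool.Agent.P.MP_84b56d_ag.Z

variable {G : Type*} [TopologicalSpace G] [NoetherianSpace G] [AddCommGroup G]
  [SeparatelyContinuousAdd G] [T1Space G]

theorem blocks_aux (dm : Set G → ℕ) (b : ℕ)
    (hb : ∀ W, IsClosed W → IsIrreducible W → dm W ≤ b)
    (hdm : ∀ W W', IsClosed W → IsIrreducible W → IsClosed W' → IsIrreducible W' → W ⊂ W' →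
      dm W < dm W') (hND : NDProp G) (r m : ℕ) : ∀ B : AddSubgroup G, CI B → dm B < m →
    ∃ 𝒳 : Set (Fin r → G), 𝒳.Finite ∧ ∀ H : AddSubgroup G, IsClosed (H : Set G) → ¬ B ≤ H →
      ∃ x ∈ 𝒳, ∀ a : Fin r → ℤ, a ≠ 0 → ∑ j, a j • x j ∉ H := by
  have hlt : ∀ A A' : AddSubgroup G, CI A → CI A' → A < A' → dm A < dm A' := fun A A' hA hA' h =>
    hdm _ _ hA.1 hA.2 hA'.1 hA'.2 (SetLike.coe_ssubset_coe.2 h)
  induction m with
  | zero => exact fun B _ h => absurd h (Nat.not_lt_zero _)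
  | succ m ih =>
  intro B hB hm
  by_cases h0 : B = ⊥
  · exact ⟨∅, Set.finite_empty, fun H _ h => absurd (h0 ▸ bot_le) h⟩
  have hbot : CI (⊥ : AddSubgroup G) := by
    constructor
    · rw [AddSubgroup.coe_bot]; exact isClosed_singleton
    · rw [AddSubgroup.coe_bot]; exact isIrreducible_singleton
  obtain ⟨B₀, ⟨hB₀, hne⟩, hmax⟩ := GrpP.exists_max
    (fun A : AddSubgroup G => CI A ∧ A < B) (fun A => dm A) b
    (fun A hA => hb _ hA.1.1 hA.1.2) ⟨⊥, hbot, bot_lt_iff_ne_bot.2 h0⟩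
  by_cases hc : ∃ B' : AddSubgroup G, CI B' ∧ B' < B ∧ ¬ B' ≤ B₀
  · obtain ⟨B', hB', hlt', hle⟩ := hc
    obtain ⟨X, hX, h1⟩ := ih B₀ hB₀ (by have := hlt _ _ hB₀ hB hne; omega)
    obtain ⟨X', hX', h2⟩ := ih B' hB' (by have := hlt _ _ hB' hB hlt'; omega)
    refine ⟨X ∪ X', hX.union hX', fun H hH hBH => ?_⟩
    by_cases h3 : B₀ ≤ H
    · refine (h2 H hH fun h4 => ?_).imp fun x hx => ⟨Or.inr hx.1, hx.2⟩
      obtain ⟨K, hK⟩ := exists_closure_subgroup (B₀ ⊔ B')
      have hKci : CI K := by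
        constructor
        · rw [hK]; exact isClosed_closure
        · rw [hK, AddSubgroup.add_normal B₀ B']; exact (isIrreducible_add hB₀.2 hB'.2).closure
      have hle' : B₀ ⊔ B' ≤ K := fun x hx => by
        have : x ∈ (K : Set G) := by rw [hK]; exact subset_closure hx
        exact this
      have hmin : ∀ H' : AddSubgroup G, IsClosed (H' : Set G) → B₀ ⊔ B' ≤ H' → K ≤ H' :=
        fun H' h5 h6 => SetLike.coe_subset_coe.1 (hK ▸ closure_minimal h6 h5)
      have h5 := hmax K ⟨hKci, lt_of_le_of_ne (hmin B hB.1 (sup_le hne.le hlt'.le))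
        fun e => hBH (e ▸ hmin H hH (sup_le h3 h4))⟩
      have h6 := hlt _ _ hB₀ hKci (lt_of_le_of_ne (le_sup_left.trans hle')
        fun e => hle (e ▸ le_sup_right.trans hle'))
      omega
    · obtain ⟨x, hx, h⟩ := h1 H hH h3
      exact ⟨x, Or.inl hx, h⟩
  · have hall : ∀ B' : AddSubgroup G, CI B' → B' < B → B' ≤ B₀ := fun B' h1 h2 =>
      by_contra fun h => hc ⟨B', h1, h2, h⟩
    have hN := hND B B₀ hB hB₀ hne fun B' hB' h1 h2 => by
      by_cases h3 : B' = B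
      · exact Or.inr h3
      · exact Or.inl (le_antisymm (hall B' hB' (lt_of_le_of_ne h2 h3)) h1)
    obtain ⟨x, hx⟩ := GrpP.indep (B₀.addSubgroupOf B) (fun E hE => by
      obtain ⟨x, hxB, hx⟩ := hN _ (hE.image B.subtype)
      refine ⟨⟨x, hxB⟩, fun n hn u hu => hx n hn u ?_⟩
      rw [← AddMonoidHom.map_closure]
      exact ⟨u, hu, rfl⟩) r ∅ Set.finite_empty
    refine ⟨{fun j => (x j : G)}, Set.finite_singleton _, fun H hH hBH => ⟨_, rfl, fun a ha h => ?_⟩⟩
    obtain ⟨H₀, h1, h2, -, -, h5⟩ := exists_idcomp (H ⊓ B) (hH.inter hB.1)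
    obtain ⟨n, hn, h6⟩ := h5 _ ⟨h, B.sum_mem fun j _ => B.zsmul_mem (x j).2 _⟩
    refine hx a ha 0 (AddSubgroup.zero_mem _) n hn ?_
    have := hall H₀ h1 (lt_of_le_of_ne (h2.trans inf_le_right)
      fun e => hBH (e ▸ h2.trans inf_le_left)) h6
    simpa [AddSubgroup.mem_addSubgroupOf] using this

theorem blocks [IrreducibleSpace G] (dm : Set G → ℕ) (b : ℕ)
    (hb : ∀ W, IsClosed W → IsIrreducible W → dm W ≤ b)
    (hdm : ∀ W W', IsClosed W → IsIrreducible W → IsClosed W' → IsIrreducible W' → W ⊂ W' →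
      dm W < dm W') (hND : NDProp G) (r : ℕ) :
    ∃ (n : ℕ) (x : Fin n → G), ∀ W : Set G, IsClosed W → W.Nonempty → W ≠ Set.univ →
      ∃ ψ : (Fin r → ℤ) →+ (Fin n → ℤ), (∀ ρ, ∀ a ∈ box r ρ, ψ a ∈ box n ρ) ∧
        ∀ a, a ≠ 0 → ¬ ∀ w ∈ W, w + ∑ i, ψ a i • x i ∈ W := by
  classical
  obtain ⟨X, hX, h⟩ := blocks_aux dm b hb hdm hND r _ ⊤
    ⟨isClosed_univ, IrreducibleSpace.isIrreducible_univ G⟩ (Nat.lt_succ_self _)
  have := hX.fintype
  let ε := (Fintype.equivFin (X × Fin r)).symm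
  refine ⟨_, fun i => (ε i).1.1 (ε i).2, fun W hW hne hWu => ?_⟩
  let H : AddSubgroup G :=
    { carrier := {γ | ∀ w ∈ W, w + γ ∈ W}
      zero_mem' := fun w hw => by simpa using hw
      add_mem' := fun ha hb w hw => by rw [← add_assoc]; exact hb _ (ha w hw)
      neg_mem' := fun {γ} hγ w hw => by
        rw [← sub_eq_add_neg]; exact sub_mem_of_add_mem hW γ hγ w hw }
  obtain ⟨x, hx, h'⟩ := h H (by
    have : (H : Set G) = ⋂ w ∈ W, {γ | w + γ ∈ W} := by
      ext γ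
      simp only [Set.mem_iInter]
      rfl
    rw [this]
    exact isClosed_biInter fun w _ => GrpP.closed_addl hW w) fun ht => hWu (by
      obtain ⟨w, hw⟩ := hne
      refine Set.eq_univ_of_forall fun y => ?_
      simpa using ht (AddSubgroup.mem_top (y - w)) w hw)
  refine ⟨AddMonoidHom.mk' (fun a i => if (ε i).1 = ⟨x, hx⟩ then a (ε i).2 else 0) fun a a' => ?_,
    fun ρ a ha => ?_, fun a ha h2 => h' a ha ?_⟩
  · funext i
    simp only [Pi.add_apply]
    split_ifs <;> simp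
  · rw [CountP.mem_box] at ha ⊢
    intro i
    simp only [AddMonoidHom.mk'_apply]
    split_ifs
    · exact ha _
    · simp
  · simp only [AddMonoidHom.mk'_apply] at h2
    rw [Equiv.sum_comp ε fun p => (if p.1 = ⟨x, hx⟩ then a p.2 else 0) • p.1.1 p.2,
      Fintype.sum_prod_type, Finset.sum_eq_single ⟨x, hx⟩ (fun y _ hy => by simp [hy])
        (by simp)] at h2
    change ∀ w ∈ W, w + _ ∈ W
    simpa using h2

end Pool.Agent.P.MP_84b56d_ag.Z
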