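import Pool.Agent.P.MP_84b56d_ag.Count
import Pool.Agent.P.MP_84b56d_ag.Dens

/-! Counting lemmas: greedy covering, random tuples, dyadic sums. -/

open Finset

namespace Pool.Agent.P.MP_84b56d_ag.Z

theorem add_mem_box {n M N : ℕ} {a b : Fin n → ℤ} (ha : a ∈ box n M) (hb : b ∈ box n N) :
    a + b ∈ box n (M + N) := by
  rw [CountP.mem_box] at *
  intro i
  have := abs_add_le (a i) (b i)
  have := ha i
  have := hb i
  rw [Pi.add_apply]
  push_cast
  omega

theorem neg_mem_box {n N : ℕ} {a : Fin n → ℤ} (ha : a ∈ box n N) : -a ∈ box n N := by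
  rw [CountP.mem_box] at *
  simpa using ha

theorem box_pos (n N : ℕ) : 0 < (box n N).card := by
  rw [CountP.card_box]; positivity

open Classical in
theorem cover {n M N m : ℕ} {ι : Type*} (I : Finset ι) (p : ι → Fin n → ℤ)
    (hp : ∀ i ∈ I, p i ∈ box n M) (B : Set (Fin n → ℤ)) (hMN : M ≤ N)
    (h : 2 ^ n * (box n N).card ≤ m * ((box n N).filter (· ∈ B)).card) :
    ∃ T : Finset (Fin n → ℤ), T.card ≤ m ∧
      I.card ≤ 2 * (I.filter fun i => ∃ t ∈ T, p i + t ∈ B).card := by
  set β := ((box n N).filter (· ∈ B)).card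
  set W := (box n (N + M)).card
  have step : ∀ U ⊆ I, ∃ t, U.card * β ≤ W * (U.filter fun i => p i + t ∈ B).card := by
    intro U hU
    obtain ⟨t, -, ht⟩ := exists_le_of_sum_le (card_pos.1 (box_pos n (N + M)))
      (f := fun _ => U.card * β) (g := fun t => W * (U.filter fun i => p i + t ∈ B).card) (by
      rw [sum_const, smul_eq_mul, ← mul_sum]
      refine Nat.mul_le_mul_left _ ?_
      simp only [card_filter]
      rw [sum_comm, ← smul_eq_mul]
      refine card_nsmul_le_sum _ _ _ fun i hi => ?_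
      rw [← card_filter]
      refine card_le_card_of_injOn (fun a => a + -p i) (fun a ha => ?_)
        fun a _ b _ hab => add_right_cancel hab
      obtain ⟨h1, h2⟩ := mem_filter.1 ha
      exact mem_filter.2 ⟨add_mem_box h1 (neg_mem_box (hp i (hU hi))), by simpa using h2⟩)
    exact ⟨t, ht⟩
  have key : ∀ m, ∃ T : Finset (Fin n → ℤ), T.card ≤ m ∧
      (I.card ≤ 2 * (I.filter fun i => ∃ t ∈ T, p i + t ∈ B).card ∨
        m * β * I.card ≤ 2 * (W * (I.filter fun i => ∃ t ∈ T, p i + t ∈ B).card)) := by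
    intro m
    induction m with
    | zero => exact ⟨∅, le_rfl, Or.inr (by simp)⟩
    | succ m ih =>
      obtain ⟨T, hT, h⟩ := ih
      by_cases h1 : I.card ≤ 2 * (I.filter fun i => ∃ t ∈ T, p i + t ∈ B).card
      · exact ⟨T, hT.trans (Nat.le_succ m), Or.inl h1⟩
      have h2 := h.resolve_left h1
      obtain ⟨t, ht⟩ := step _ (filter_subset (fun i => ¬ ∃ t ∈ T, p i + t ∈ B) I)
      have h3 := card_filter_add_card_filter_not (s := I) fun i => ∃ t ∈ T, p i + t ∈ B
      refine ⟨insert t T, (card_insert_le _ _).trans (Nat.succ_le_succ hT), Or.inr ?_⟩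
      have h4 : (I.filter fun i => ∃ t ∈ T, p i + t ∈ B).card +
          ((I.filter fun i => ¬ ∃ t ∈ T, p i + t ∈ B).filter fun i => p i + t ∈ B).card ≤
          (I.filter fun i => ∃ t' ∈ insert t T, p i + t' ∈ B).card := by
        rw [← card_union_of_disjoint
          ((disjoint_filter_filter_not I I _).mono_right (filter_subset _ _))]
        refine card_le_card fun i hi => ?_
        rcases mem_union.1 hi with hi | hi
        · obtain ⟨h5, s, hs, h6⟩ := mem_filter.1 hi
          exact mem_filter.2 ⟨h5, s, mem_insert_of_mem hs, h6⟩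
        · obtain ⟨h5, h6⟩ := mem_filter.1 hi
          exact mem_filter.2 ⟨(mem_filter.1 h5).1, t, mem_insert_self _ _, h6⟩
      have h5 := Nat.mul_le_mul_left W h4
      have h6 : I.card * β ≤ 2 * (I.filter fun i => ¬ ∃ t ∈ T, p i + t ∈ B).card * β :=
        Nat.mul_le_mul_right _ (by omega)
      nlinarith
  obtain ⟨T, hT, h1 | h1⟩ := key m
  · exact ⟨T, hT, h1⟩
  have hW : W ≤ m * β := (DensP.card_box_add_le n N M hMN).trans h
  refine ⟨T, hT, Nat.le_of_mul_le_mul_left (h1.trans ?_) ((box_pos _ _).trans_le hW)⟩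
  rw [mul_left_comm]
  exact Nat.mul_le_mul_right _ hW

theorem tuples {α : Type*} [DecidableEq α] (Bx A : Finset α) (ω a u v : ℕ)
    (h : u * A.card ≤ v * Bx.card) :
    u ^ a * ((Fintype.piFinset fun _ : Fin ω => Bx).filter fun t =>
      a ≤ (univ.filter fun l => t l ∈ A).card).card ≤ ω.choose a * v ^ a * Bx.card ^ ω := by
  have h1 : ((Fintype.piFinset fun _ : Fin ω => Bx).filter fun t =>
      a ≤ (univ.filter fun l => t l ∈ A).card) ⊆ (powersetCard a univ).biUnion fun s =>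
        Fintype.piFinset fun l => if l ∈ s then A else Bx := by
    intro t ht
    obtain ⟨h1, h2⟩ := mem_filter.1 ht
    obtain ⟨s, hs, h3⟩ := exists_subset_card_eq h2
    refine mem_biUnion.2 ⟨s, mem_powersetCard.2 ⟨subset_univ _, h3⟩,
      Fintype.mem_piFinset.2 fun l => ?_⟩
    split_ifs with hl
    · exact (mem_filter.1 (hs hl)).2
    · exact Fintype.mem_piFinset.1 h1 l
  refine (Nat.mul_le_mul_left _ ((card_le_card h1).trans card_biUnion_le)).trans ?_
  rw [mul_sum, mul_assoc]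
  refine (sum_le_card_nsmul _ _ (v ^ a * Bx.card ^ ω) fun s hs => ?_).trans (by simp)
  have e : ∀ x : ℕ, x ^ a = ∏ l, if l ∈ s then x else 1 := fun x => by
    rw [prod_ite_mem, univ_inter, prod_const, (mem_powersetCard.1 hs).2]
  have e' : Bx.card ^ ω = ∏ _l : Fin ω, Bx.card := by simp
  rw [Fintype.card_piFinset, e u, e v, e', ← prod_mul_distrib, ← prod_mul_distrib]
  refine prod_le_prod' fun l _ => ?_
  split_ifs
  · exact h
  · exact le_rfl

open Classical in
theorem tuples' {α ι : Type*} [DecidableEq α] (Bx : Finset α) (J : Finset ι) (A : ι → Finset α)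
    (ω a u v : ℕ) (hu : 0 < u) (h : ∀ j ∈ J, u * (A j).card ≤ v * Bx.card)
    (h' : 4 * J.card * (ω.choose a * v ^ a) ≤ u ^ a) :
    4 * ((Fintype.piFinset fun _ : Fin ω => Bx).filter fun t =>
      ∃ j ∈ J, a ≤ (univ.filter fun l => t l ∈ A j).card).card ≤ Bx.card ^ ω := by
  have h1 : ((Fintype.piFinset fun _ : Fin ω => Bx).filter fun t =>
      ∃ j ∈ J, a ≤ (univ.filter fun l => t l ∈ A j).card) ⊆ J.biUnion fun j =>
        (Fintype.piFinset fun _ : Fin ω => Bx).filter fun t =>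
          a ≤ (univ.filter fun l => t l ∈ A j).card := by
    intro t ht
    obtain ⟨h1, j, hj, h2⟩ := mem_filter.1 ht
    exact mem_biUnion.2 ⟨j, hj, mem_filter.2 ⟨h1, h2⟩⟩
  have h2 := Nat.mul_le_mul_left (u ^ a) ((card_le_card h1).trans card_biUnion_le)
  rw [mul_sum] at h2
  have h3 := h2.trans (sum_le_card_nsmul _ _ _ fun j hj => tuples Bx (A j) ω a u v (h j hj))
  refine Nat.le_of_mul_le_mul_left ?_ (Nat.pow_pos hu : 0 < u ^ a)
  have h4 := Nat.mul_le_mul_right (Bx.card ^ ω) h'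
  rw [smul_eq_mul] at h3
  nlinarith

theorem dyadic {P : Type*} (Q : Finset P) (e : P → ℕ) (J Φ : ℕ) (h : ∀ q ∈ Q, e q < 2 ^ J)
    (h' : ∀ a, a * (Q.filter fun q => a ≤ e q).card ≤ Φ) : ∑ q ∈ Q, e q ≤ J * Φ := by
  have key : ∀ x J : ℕ, x ≤ ∑ j ∈ range J, (if 2 ^ j ≤ x then 2 ^ j else 0) ∨
      2 ^ J ≤ ∑ j ∈ range J, (if 2 ^ j ≤ x then 2 ^ j else 0) + 1 := by
    intro x J
    induction J with
    | zero => simp
    | succ J ih =>
      rw [sum_range_succ, pow_succ]
      split_ifs <;> omega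
  refine (sum_le_sum fun q hq => (?_ : e q ≤
    ∑ j ∈ range J, if 2 ^ j ≤ e q then 2 ^ j else 0)).trans ?_
  · have := key (e q) J
    have := h q hq
    omega
  rw [sum_comm]
  refine (sum_le_card_nsmul _ _ Φ fun j _ => ?_).trans (by simp)
  rw [← sum_filter, sum_const, smul_eq_mul, mul_comm]
  exact h' _

theorem exists_finset {P : Type*} (s : Set P) (M : ℕ)
    (h : ∀ Q : Finset P, (∀ q ∈ Q, q ∈ s) → Q.card ≤ M) :
    ∃ F : Finset P, F.card ≤ M ∧ ∀ q, q ∈ F ↔ q ∈ s := by
  have hs : s.Finite := by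
    by_contra hinf
    obtain ⟨Q, hQ, hc⟩ := Set.Infinite.exists_subset_card_eq hinf (M + 1)
    have := h Q fun q hq => hQ hq
    omega
  exact ⟨hs.toFinset, h _ fun q hq => hs.mem_toFinset.1 hq, fun q => hs.mem_toFinset⟩

theorem exists_large (c : ℕ) : ∃ i, c ≤ i ∧ c * (i + 1) ≤ 2 ^ i := by
  have key : ∀ i, (i + 7) ^ 2 ≤ 2 ^ (i + 6) := by
    intro i
    induction i with
    | zero => norm_num
    | succ i ih => rw [show i + 1 + 6 = i + 6 + 1 by ring, pow_succ 2]; nlinarith [Nat.zero_le i, Nat.zero_le (i ^ 2)]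
  exact ⟨c + 6, by omega, le_trans (by nlinarith) (key c)⟩

end Pool.Agent.P.MP_84b56d_ag.Z
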