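import Pool.Agent.P.MP_84b56d_ag.Z.Comb1

/-! The primes with dense bad sets. -/

open Finset

namespace Pool.Agent.P.MP_84b56d_ag.Z

open Classical in
/-- the determinant estimate in combinatorial form -/
def DETZ {P : Type*} (n g d κ : ℕ) (Bad : P → Set (Fin n → ℤ)) (C₀ C₁ C : ℕ) : Prop :=
  ∀ μ ρ N : ℕ, 1 ≤ μ → 1 ≤ ρ → g * ρ ≤ N → C₀ * μ ^ g < (2 * ρ + 1) ^ (2 * κ * g) →
    ∀ Ω ⊆ box n N, ∃ (I : Finset (Fin g → Fin (μ + 1))) (p : (Fin g → Fin (μ + 1)) → Fin n → ℤ),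
      (∀ i ∈ I, p i ∈ box n (g * ρ)) ∧ (μ + 1) ^ g ≤ I.card + C₁ * μ ^ d * Ω.card ∧
      ∀ (Q : Finset P) (e : ℕ), (∀ q ∈ Q, ∃ T : Finset (Fin n → ℤ), e + C₁ * μ ^ d * T.card ≤
        (I.filter fun i => ∃ t, (t ∈ Ω ∨ t ∈ T) ∧ p i + t ∈ Bad q).card) →
        e * Q.card ≤ C * (μ + 1) ^ g * μ * N ^ κ

theorem param_zero {C₀ c g κ x μ : ℕ} (hg : 1 ≤ g) (hκ : 1 ≤ κ) (hx : 1 ≤ x)
    (h : μ ≤ c * x ^ (2 * κ)) :
    C₀ * μ ^ g < (2 * ((C₀ * c ^ g + 1) * x) + 1) ^ (2 * κ * g) := by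
  have h1 : μ ^ g ≤ c ^ g * x ^ (2 * κ * g) := by
    rw [pow_mul, ← mul_pow]; exact Nat.pow_le_pow_left h g
  have h2 : 0 < x ^ (2 * κ * g) := Nat.pow_pos hx
  have h3 : C₀ * c ^ g + 1 ≤ (C₀ * c ^ g + 1) ^ (2 * κ * g) :=
    Nat.le_self_pow (by positivity) _
  calc C₀ * μ ^ g ≤ C₀ * (c ^ g * x ^ (2 * κ * g)) := Nat.mul_le_mul_left _ h1
    _ < (C₀ * c ^ g + 1) * x ^ (2 * κ * g) := by nlinarith
    _ ≤ ((C₀ * c ^ g + 1) * x) ^ (2 * κ * g) := by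
      rw [mul_pow]; exact Nat.mul_le_mul_right _ h3
    _ ≤ _ := Nat.pow_le_pow_left (by omega) _

theorem param_cond (C₁ d y : ℕ) :
    4 * (C₁ * ((4 * C₁ + 1) * y) ^ d * y ^ 2) ≤ ((4 * C₁ + 1) * y + 1) ^ (d + 2) := by
  refine le_trans ?_ (Nat.pow_le_pow_left (Nat.le_succ _) _)
  rw [pow_add, mul_pow _ y 2]
  have : 4 * C₁ ≤ (4 * C₁ + 1) ^ 2 := by nlinarith
  have := Nat.mul_le_mul_right (((4 * C₁ + 1) * y) ^ d * y ^ 2) this
  nlinarith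

variable {P : Type*} {n g d κ : ℕ} {Bad : P → Set (Fin n → ℤ)} {C₀ C₁ C : ℕ}

open Classical in
theorem dense_count (hg : g = d + 2) (hκ : 1 ≤ κ) (h : DETZ n g d κ Bad C₀ C₁ C) :
    ∃ C₂ : ℕ, ∀ x, 1 ≤ x → ∀ Q : Finset P,
      (∀ q ∈ Q, ∃ N, g * ((C₀ * (4 * C₁ + 1) ^ g + 1) * x) ≤ N ∧
        2 ^ n * (box n N).card ≤ x ^ (4 * κ) * ((box n N).filter (· ∈ Bad q)).card) →
      Q.card ≤ C₂ * x ^ (3 * κ) := by
  refine ⟨8 * C * (4 * C₁ + 1) * (g * (C₀ * (4 * C₁ + 1) ^ g + 1)) ^ κ, fun x hx Q hQ => ?_⟩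
  have hy : 1 ≤ x ^ (2 * κ) := Nat.pow_pos hx
  have hμ : 1 ≤ (4 * C₁ + 1) * x ^ (2 * κ) := Nat.mul_pos (Nat.succ_pos _) hy
  obtain ⟨I, p, hp, hI, hc⟩ := h _ _ _ hμ (Nat.mul_pos (Nat.succ_pos _) hx) le_rfl
    (param_zero (by omega) hκ hx le_rfl) ∅ (empty_subset _)
  have h1 := param_cond C₁ d (x ^ (2 * κ))
  rw [← hg, ← pow_mul, show 2 * κ * 2 = 4 * κ by ring] at h1
  have h4 : 2 ^ 2 ≤ ((4 * C₁ + 1) * x ^ (2 * κ) + 1) ^ g :=
    (Nat.pow_le_pow_right (by norm_num) (by omega)).trans (Nat.pow_le_pow_left (by omega) g)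
  set K := ((4 * C₁ + 1) * x ^ (2 * κ) + 1) ^ g
  have h2 := hc Q (K / 4) fun q hq => by
    obtain ⟨N, hN, hN'⟩ := hQ q hq
    obtain ⟨T, hT, hT'⟩ := cover I p hp (Bad q) hN hN'
    refine ⟨T, ?_⟩
    have := Nat.mul_le_mul_left (C₁ * ((4 * C₁ + 1) * x ^ (2 * κ)) ^ d) hT
    simp only [notMem_empty, false_or]
    simp only [card_empty, mul_zero, add_zero] at hI
    omega
  refine Nat.le_of_mul_le_mul_left ?_ (show 0 < K by omega)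
  have h3 : K * Q.card ≤ 8 * (K / 4) * Q.card := Nat.mul_le_mul_right _ (by omega)
  rw [mul_assoc] at h3
  refine h3.trans ((Nat.mul_le_mul_left 8 h2).trans (le_of_eq ?_))
  rw [Nat.succ_eq_add_one, ← mul_assoc g, mul_pow (g * _)]
  ring

open Classical in
theorem dense_union (hκ : 1 ≤ κ) (F : ℕ → Finset P) (C₂ j₀ j₁ N : ℕ)
    (hF : ∀ j, (F j).card ≤ C₂ * (2 ^ j) ^ (3 * κ))
    (hF' : ∀ j ≤ j₁, ∀ q, 2 ^ n * (box n N).card ≤
      (2 ^ j) ^ (4 * κ) * ((box n N).filter (· ∈ Bad q)).card → q ∈ F j) :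
    ∀ s, j₀ + s ≤ j₁ → 2 ^ (j₀ + s) * ((box n N).filter fun a => ∃ q, q ∉ F j₀ ∧
      2 ^ n * (box n N).card ≤ (2 ^ (j₀ + s)) ^ (4 * κ) * ((box n N).filter (· ∈ Bad q)).card ∧
        a ∈ Bad q).card + 2 * C₂ * 2 ^ (3 * κ) * 2 ^ n * (box n N).card ≤
      2 ^ s * (2 * C₂ * 2 ^ (3 * κ) * 2 ^ n * (box n N).card) := by
  intro s
  induction s with
  | zero =>
    intro h
    rw [filter_eq_empty_iff.2, card_empty]
    · simp
    · rintro a - ⟨q, h1, h2, -⟩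
      exact h1 (hF' _ h q h2)
  | succ s ih =>
    intro h
    have h1 := ih (by omega)
    rw [← add_assoc]
    set j := j₀ + s
    let V := ((F (j + 1)).filter fun q => ¬ 2 ^ n * (box n N).card ≤
      (2 ^ j) ^ (4 * κ) * ((box n N).filter (· ∈ Bad q)).card).biUnion
        fun q => (box n N).filter (· ∈ Bad q)
    have h2 : (2 ^ j) ^ (4 * κ) * V.card ≤
        C₂ * (2 ^ (j + 1)) ^ (3 * κ) * (2 ^ n * (box n N).card) := by
      refine (Nat.mul_le_mul_left _ card_biUnion_le).trans ?_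
      rw [mul_sum]
      refine (sum_le_card_nsmul _ _ (2 ^ n * (box n N).card)
        fun q hq => (not_le.1 (mem_filter.1 hq).2).le).trans ?_
      exact Nat.mul_le_mul_right _ ((card_filter_le _ _).trans (hF _))
    have h3 : 2 ^ j * V.card ≤ C₂ * 2 ^ (3 * κ) * 2 ^ n * (box n N).card := by
      refine Nat.le_of_mul_le_mul_left ?_ (show 0 < (2 ^ j) ^ (3 * κ) by positivity)
      have : (2 ^ j) ^ (3 * κ) * 2 ^ j ≤ (2 ^ j) ^ (4 * κ) := by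
        rw [← pow_succ]
        exact Nat.pow_le_pow_right (by positivity) (by omega)
      rw [← mul_assoc]
      refine (Nat.mul_le_mul_right _ this).trans (h2.trans (le_of_eq ?_))
      rw [pow_succ, mul_pow]
      ring
    have h4 := (card_le_card (show ((box n N).filter fun a => ∃ q, q ∉ F j₀ ∧
      2 ^ n * (box n N).card ≤ (2 ^ (j + 1)) ^ (4 * κ) * ((box n N).filter (· ∈ Bad q)).card ∧
        a ∈ Bad q) ⊆ ((box n N).filter fun a => ∃ q, q ∉ F j₀ ∧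
      2 ^ n * (box n N).card ≤ (2 ^ j) ^ (4 * κ) * ((box n N).filter (· ∈ Bad q)).card ∧
        a ∈ Bad q) ∪ V from fun a ha => by
      obtain ⟨h5, q, h6, h7, h8⟩ := mem_filter.1 ha
      by_cases h9 : 2 ^ n * (box n N).card ≤
        (2 ^ j) ^ (4 * κ) * ((box n N).filter (· ∈ Bad q)).card
      · exact mem_union_left _ (mem_filter.2 ⟨h5, q, h6, h9, h8⟩)
      · exact mem_union_right _ (mem_biUnion.2 ⟨q, mem_filter.2 ⟨hF' _ h q h7, h9⟩,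
          mem_filter.2 ⟨h5, h8⟩⟩))).trans (card_union_le _ _)
    have h5 := Nat.mul_le_mul_left (2 ^ j) h4
    rw [pow_succ 2 j, pow_succ 2 s] at *
    nlinarith

end Pool.Agent.P.MP_84b56d_ag.Z
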