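import Pool.Agent.P.MP_84b56d_ag.Z.Comb2

/-! The sieve: a point outside the bad sets of all but finitely many primes. -/

open Finset

namespace Pool.Agent.P.MP_84b56d_ag.Z

theorem numeric (n κ g B C c : ℕ) (hκ : 1 ≤ κ) (hB : 1 ≤ B) : ∃ c' : ℕ, ∀ i x : ℕ, x = 2 ^ i →
    c' * (i + 1) ≤ x →
    4 * (box n (B * x ^ 2)).card * ((2 * x ^ (6 * κ)).choose (x ^ (6 * κ)) * 1 ^ x ^ (6 * κ)) ≤
      8 ^ x ^ (6 * κ) ∧
    4 * ((box n (B * x ^ 2)).card * ((box n (B * x ^ 2 + B * x ^ 2)).card *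
      (C * (B * x ^ 2 + B * x ^ 2) ^ κ))) * ((2 * x ^ (6 * κ)).choose (2 * n + κ + 1) *
        (2 ^ n * 2 ^ n) ^ (2 * n + κ + 1)) ≤ (x ^ (8 * κ)) ^ (2 * n + κ + 1) ∧
    ∃ J, (c * x ^ (3 * κ) + 1) ^ g < 2 ^ J ∧
      (2 * n + κ + 1) * (2 * J * (C * (c * x ^ (3 * κ)) * (B * x ^ 2) ^ κ)) ≤ x ^ (6 * κ) := by
  set k₀ := 2 * n + κ + 1
  refine ⟨(4 * (3 * B) ^ n + 2 * n) + (4 * (3 * B) ^ n * (5 * B) ^ n * C * (2 * B) ^ κ *
    (2 * (2 ^ n * 2 ^ n)) ^ k₀ + k₀ * 2 * (g * (c + 3 * κ) + 1) * C * c * B ^ κ),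
    fun i x hx h => ?_⟩
  have h1 : 1 ≤ x := hx ▸ Nat.one_le_two_pow
  have h2 : 1 ≤ B * x ^ 2 := Nat.mul_pos hB (Nat.pow_pos h1)
  have hp : ∀ a, 1 ≤ a → x ≤ x ^ a := fun a ha => Nat.le_self_pow (by omega) x
  have hb1 : (box n (B * x ^ 2)).card ≤ (3 * B) ^ n * x ^ (2 * n) := by
    rw [CountP.card_box, pow_mul, ← mul_pow]
    exact Nat.pow_le_pow_left (by rw [mul_assoc]; omega) n
  have hb2 : (box n (B * x ^ 2 + B * x ^ 2)).card ≤ (5 * B) ^ n * x ^ (2 * n) := by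
    rw [CountP.card_box, pow_mul, ← mul_pow]
    exact Nat.pow_le_pow_left (by rw [mul_assoc]; omega) n
  rw [add_mul, add_mul (4 * _ * _ * _ * _ * _)] at h
  refine ⟨?_, ?_, g * (c + 3 * κ * i) + 1, ?_, ?_⟩
  · have h3 : 4 * (box n (B * x ^ 2)).card ≤ 2 ^ x ^ (6 * κ) := by
      refine (Nat.mul_le_mul_left 4 hb1).trans ?_
      have h4 : x ^ (2 * n) = 2 ^ (i * (2 * n)) := by rw [hx, ← pow_mul]
      rw [← mul_assoc, h4]
      refine (Nat.mul_le_mul_right _ (Nat.lt_two_pow_self).le).trans ?_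
      rw [← pow_add]
      refine Nat.pow_le_pow_right (by norm_num) (le_trans ?_ (hp _ (by omega)))
      refine le_trans ?_ ((Nat.le_add_right _ _).trans h)
      nlinarith [Nat.zero_le (4 * (3 * B) ^ n * i)]
    refine (Nat.mul_le_mul h3 (Nat.mul_le_mul_right _ (Nat.choose_le_two_pow _ _))).trans
      (le_of_eq ?_)
    rw [one_pow, mul_one, pow_mul 2 2, ← mul_pow]
    norm_num
  · have h3 : 4 * (3 * B) ^ n * (5 * B) ^ n * C * (2 * B) ^ κ * (2 * (2 ^ n * 2 ^ n)) ^ k₀ ≤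
        x ^ 2 := (Nat.le_mul_of_pos_right _ (Nat.succ_pos i)).trans
      (((Nat.le_add_right _ _).trans ((Nat.le_add_left _ _).trans h)).trans (hp 2 (by norm_num)))
    calc _ ≤ 4 * ((3 * B) ^ n * x ^ (2 * n) * ((5 * B) ^ n * x ^ (2 * n) *
          (C * (B * x ^ 2 + B * x ^ 2) ^ κ))) *
          ((2 * x ^ (6 * κ)) ^ k₀ * (2 ^ n * 2 ^ n) ^ k₀) := by
          gcongr
          exact Nat.choose_le_pow _ _
      _ = 4 * (3 * B) ^ n * (5 * B) ^ n * C * (2 * B) ^ κ * (2 * (2 ^ n * 2 ^ n)) ^ k₀ *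
          x ^ (4 * n + 2 * κ + 6 * κ * k₀) := by
          rw [← two_mul, ← mul_assoc 2 B, mul_pow (2 * B), mul_pow 2 (x ^ _), mul_pow 2 (_ * _),
            ← pow_mul x, ← pow_mul x]
          generalize (2 ^ n * 2 ^ n) ^ k₀ = a1, (3 * B) ^ n = a2, (5 * B) ^ n = a3,
            (2 * B) ^ κ = a4, 2 ^ k₀ = a5
          ring
      _ ≤ x ^ 2 * x ^ (4 * n + 2 * κ + 6 * κ * k₀) := Nat.mul_le_mul_right _ h3
      _ ≤ _ := by
          rw [← pow_add, ← pow_mul]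
          refine Nat.pow_le_pow_right h1 ?_
          have : k₀ ≤ κ * k₀ := Nat.le_mul_of_pos_left _ hκ
          have e : 2 * k₀ = 4 * n + 2 * κ + 2 := by simp only [k₀]; ring
          nlinarith
  · rw [pow_succ, mul_comm g, pow_mul 2]
    have h3 : c * x ^ (3 * κ) + 1 ≤ 2 ^ (c + 3 * κ * i) := by
      rw [pow_add, mul_comm (3 * κ), pow_mul 2 i, ← hx]
      have h4 : 1 ≤ x ^ (3 * κ) := Nat.pow_pos h1
      have h5 : c + 1 ≤ 2 ^ c := Nat.lt_two_pow_self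
      nlinarith
    have h4 := Nat.pow_le_pow_left h3 g
    have h5 : 0 < (2 ^ (c + 3 * κ * i)) ^ g := by positivity
    omega
  · have h3 : k₀ * 2 * (g * (c + 3 * κ) + 1) * C * c * B ^ κ * (i + 1) ≤ x ^ κ :=
      le_trans (by omega) (hp κ hκ)
    have h4 : g * (c + 3 * κ * i) + 1 ≤ (g * (c + 3 * κ) + 1) * (i + 1) := by
      nlinarith [Nat.zero_le (g * c * i), Nat.zero_le (g * κ)]
    calc _ ≤ k₀ * (2 * ((g * (c + 3 * κ) + 1) * (i + 1)) *
          (C * (c * x ^ (3 * κ)) * (B * x ^ 2) ^ κ)) := by gcongr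
      _ = k₀ * 2 * (g * (c + 3 * κ) + 1) * C * c * B ^ κ * (i + 1) * x ^ (5 * κ) := by
          rw [mul_pow]; ring
      _ ≤ x ^ κ * x ^ (5 * κ) := Nat.mul_le_mul_right _ h3
      _ = _ := by ring

variable {P : Type*} {n g d κ : ℕ} {Bad : P → Set (Fin n → ℤ)} {C₀ C₁ C : ℕ}

open Classical in
theorem final_step (hg : g = d + 2) (hκ : 1 ≤ κ) (h : DETZ n g d κ Bad C₀ C₁ C) :
    ∃ c' : ℕ, ∀ i x N : ℕ, x = 2 ^ i → c' * (i + 1) ≤ x →
      N = g * ((C₀ * (4 * C₁ + 1) ^ g + 1) * x ^ 2) → ∀ Bd : Finset (Fin n → ℤ),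
      8 * Bd.card ≤ (box n N).card → ∀ Q : Finset P,
      Q.card ≤ (box n (N + N)).card * (C * (N + N) ^ κ) →
      (∀ q ∈ Q, x ^ (8 * κ) * ((box n (N + N)).filter (· ∈ Bad q)).card ≤
        2 ^ n * (box n (N + N)).card) →
      ∃ a ∈ box n (N + N), a ∉ Bd ∧ ∀ q ∈ Q, a ∉ Bad q := by
  obtain ⟨c', hc'⟩ := numeric n κ g (g * (C₀ * (4 * C₁ + 1) ^ g + 1)) C (4 * C₁ + 1) hκ
    (Nat.mul_pos (by omega) (Nat.succ_pos _))
  refine ⟨c', fun i x N hx hi hN Bd hBd Q hQ hQ' => ?_⟩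
  obtain ⟨n1, n2, J, n3, n4⟩ := hc' i x hx hi
  rw [mul_assoc g, ← hN] at n1 n2 n4
  have h1 : 1 ≤ x := hx ▸ Nat.one_le_two_pow
  set k₀ := 2 * n + κ + 1
  set k₁ := x ^ (6 * κ) with hk₁
  have t1 := tuples' (box n N) (box n N) (fun y => (box n N).filter fun t => y + t ∈ Bd)
    (2 * k₁) k₁ 8 1 (by norm_num) (fun y _ => by
      rw [one_mul]
      refine le_trans (Nat.mul_le_mul_left _ (card_le_card_of_injOn (fun t => y + t)
        (fun t ht => (mem_filter.1 ht).2) fun _ _ _ _ e => add_left_cancel e)) hBd) n1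
  have t2 := tuples' (box n N) (box n N ×ˢ Q)
    (fun y => (box n N).filter fun t => y.1 + t ∈ Bad y.2) (2 * k₁) k₀ (x ^ (8 * κ))
    (2 ^ n * 2 ^ n) (Nat.pow_pos h1) (fun y hy => by
      obtain ⟨h2, h3⟩ := mem_product.1 hy
      rw [mul_assoc]
      refine le_trans (Nat.mul_le_mul_left _ (card_le_card_of_injOn (fun t => y.1 + t)
        (fun t ht => ?_) fun _ _ _ _ e => add_left_cancel e)) ((hQ' _ h3).trans
          (Nat.mul_le_mul_left _ (DensP.card_box_add_le n N N le_rfl)))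
      exact mem_filter.2 ⟨add_mem_box h2 (mem_filter.1 ht).1, (mem_filter.1 ht).2⟩)
    (le_trans (by rw [card_product]; gcongr) n2)
  have t3 := (fun a b w (h1 : 4 * a ≤ w) (h2 : 4 * b ≤ w) (h3 : 0 < w) =>
    (by omega : a + b < w)) _ _ _ t1 t2 (Nat.pow_pos (box_pos n N))
  obtain ⟨t, ht, ht'⟩ := exists_mem_notMem_of_card_lt_card (t := Fintype.piFinset
    fun _ : Fin (2 * k₁) => box n N) (((card_union_le _ _).trans_lt t3).trans_eq (by simp))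
  simp only [mem_union, mem_filter, ht, true_and, not_or, not_exists, not_and, not_le] at ht'
  rw [Fintype.mem_piFinset] at ht
  simp only [mem_univ, ht, true_and] at ht'
  have hy : 1 ≤ x ^ (3 * κ) := Nat.pow_pos h1
  obtain ⟨I, p, hp, hI, hc⟩ := h ((4 * C₁ + 1) * x ^ (3 * κ)) _ N
    (Nat.mul_pos (Nat.succ_pos _) hy) (Nat.mul_pos (Nat.succ_pos _) (Nat.pow_pos h1)) hN.ge
    (param_zero (c := 4 * C₁ + 1) (by omega) hκ (Nat.pow_pos h1) (Nat.mul_le_mul_left _ (by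
      rw [← pow_mul]; exact Nat.pow_le_pow_right h1 (by omega)))) (univ.image t)
    (fun a ha => by obtain ⟨l, -, rfl⟩ := mem_image.1 ha; exact ht l)
  rw [← hN] at hp
  have h2 := param_cond C₁ d (x ^ (3 * κ))
  rw [← hg, ← pow_mul, show 3 * κ * 2 = 6 * κ by ring, ← hk₁] at h2
  have hIK : I.card ≤ ((4 * C₁ + 1) * x ^ (3 * κ) + 1) ^ g := (card_le_univ I).trans (by simp)
  have hK : 0 < ((4 * C₁ + 1) * x ^ (3 * κ) + 1) ^ g := by positivity
  set K := ((4 * C₁ + 1) * x ^ (3 * κ) + 1) ^ g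
  have h3 : K ≤ 2 * I.card := by
    have := Nat.mul_le_mul_left (C₁ * ((4 * C₁ + 1) * x ^ (3 * κ)) ^ d)
      (card_image_le (s := univ) (f := t))
    rw [card_univ, Fintype.card_fin, mul_left_comm] at this
    omega
  have h4 := dyadic Q (fun q => (I.filter fun j => ∃ l, p j + t l ∈ Bad q).card) J _
    (fun q _ => ((card_filter_le _ _).trans hIK).trans_lt n3) fun a => hc _ a fun q hq =>
      ⟨∅, by simpa using (mem_filter.1 hq).2⟩
  simp only [card_filter] at h4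
  rw [sum_comm] at h4
  simp only [← card_filter] at h4
  obtain ⟨j, hj, h5⟩ := exists_le_of_sum_le (card_pos.1 (show 0 < I.card by omega))
    (f := fun j => (Q.filter fun q => ∃ l, p j + t l ∈ Bad q).card)
    (g := fun _ => 2 * J * (C * ((4 * C₁ + 1) * x ^ (3 * κ)) * N ^ κ)) (h4.trans (by
      rw [sum_const, smul_eq_mul]
      have := Nat.mul_le_mul_right (J * (C * ((4 * C₁ + 1) * x ^ (3 * κ)) * N ^ κ)) h3
      exact le_trans (le_of_eq (by ring)) (this.trans (le_of_eq (by ring)))))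
  obtain ⟨l, -, hl⟩ := exists_mem_notMem_of_card_lt_card (t := (univ : Finset (Fin (2 * k₁))))
    (s := (univ.filter fun l => p j + t l ∈ Bd) ∪ (Q.filter fun q => ∃ l, p j + t l ∈ Bad q).biUnion
      fun q => univ.filter fun l => p j + t l ∈ Bad q) ((card_union_le _ _).trans_lt (by
      have h6 := ht'.1 _ (hp j hj)
      have h7 := (card_biUnion_le_card_mul (Q.filter fun q => ∃ l, p j + t l ∈ Bad q)
        (fun q => univ.filter fun l => p j + t l ∈ Bad q) k₀ fun q hq =>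
          (ht'.2 (p j, q) (mem_product.2 ⟨hp j hj, (mem_filter.1 hq).1⟩)).le).trans
        (Nat.mul_le_mul_right _ h5)
      rw [mul_comm _ k₀] at h7
      rw [card_univ, Fintype.card_fin]
      omega))
  simp only [mem_union, mem_filter, mem_univ, true_and, not_or, mem_biUnion, not_exists,
    not_and] at hl
  exact ⟨_, add_mem_box (hp j hj) (ht l), hl.1, fun q hq hb => hl.2 q ⟨hq, l, hb⟩ hb⟩

open Classical in
theorem comb_main (hg : g = d + 2) (hκ : 1 ≤ κ) (h : DETZ n g d κ Bad C₀ C₁ C)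
    (Zs : Set (Fin n → ℤ)) (h0 : ∀ N, 1 ≤ N → ∀ a ∈ box n N, a ∉ Zs → ∀ Q : Finset P,
      (∀ q ∈ Q, a ∈ Bad q) → Q.card ≤ C * N ^ κ) :
    ∃ S : Set P, S.Finite ∧ ∀ Y : Set (Fin n → ℤ), Zs ⊆ Y → (∀ L : ℕ, ∃ N₀ : ℕ, ∀ N, N₀ ≤ N →
      L * ((box n N).filter (· ∈ Y)).card ≤ (box n N).card) →
      ∃ a, a ∉ Y ∧ ∀ q, q ∉ S → a ∉ Bad q := by
  obtain ⟨C₂, hC₂⟩ := dense_count hg hκ h
  obtain ⟨c', hc'⟩ := final_step hg hκ h
  choose F hF hF' using fun j : ℕ => exists_finset _ _ (hC₂ (2 ^ j) Nat.one_le_two_pow)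
  set w := 2 * C₂ * 2 ^ (3 * κ) * 2 ^ n
  set j₀ := 16 * 2 ^ n * (w + 1) with hj₀
  refine ⟨F j₀, finite_toSet _, fun Y hY hY' => ?_⟩
  obtain ⟨N₀, hN₀⟩ := hY' (16 * 2 ^ n)
  obtain ⟨i, hi, hi'⟩ := exists_large (c' + j₀ + N₀)
  obtain ⟨N, hN⟩ : ∃ N, N = g * ((C₀ * (4 * C₁ + 1) ^ g + 1) * (2 ^ i) ^ 2) := ⟨_, rfl⟩
  have hx : (2 ^ i) ^ 2 = 2 ^ (2 * i) := by rw [← pow_mul, mul_comm]
  have hN1 : 2 ^ (2 * i) ≤ N := by
    rw [hN, ← mul_assoc, hx]
    exact Nat.le_mul_of_pos_left _ (Nat.mul_pos (by omega) (Nat.succ_pos _))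
  have hN2 : 2 * i < 2 ^ (2 * i) := Nat.lt_two_pow_self
  obtain ⟨s, hs⟩ := Nat.exists_eq_add_of_le (show j₀ ≤ 2 * i by omega)
  have h1 := dense_union hκ F C₂ j₀ (2 * i) (N + N) hF (fun j hj q hq => (hF' j q).2
    ⟨N + N, le_trans ?_ (Nat.le_add_right _ _), hq⟩) s hs.ge
  swap
  · rw [hN, hx]
    gcongr
    norm_num
  set U := (box n (N + N)).filter fun a => ∃ q, q ∉ F j₀ ∧ 2 ^ n * (box n (N + N)).card ≤
    (2 ^ (j₀ + s)) ^ (4 * κ) * ((box n (N + N)).filter (· ∈ Bad q)).card ∧ a ∈ Bad q with hU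
  have h2 : 16 * 2 ^ n * U.card ≤ (box n (N + N)).card := by
    have h3 : 2 ^ j₀ * U.card ≤ w * (box n (N + N)).card := by
      refine Nat.le_of_mul_le_mul_left ((le_of_eq ?_).trans ((Nat.le_add_right _ _).trans h1))
        (show 0 < 2 ^ s by positivity)
      rw [pow_add]; ring
    refine Nat.le_of_mul_le_mul_left ?_ (Nat.succ_pos w)
    have h4 := Nat.mul_le_mul_right U.card (Nat.lt_two_pow_self (n := j₀)).le
    rw [Nat.succ_eq_add_one]
    nlinarith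
  have hex : ∀ a, ∃ Fa : Finset P, a ∈ (box n (N + N)).filter (· ∉ Y) →
      Fa.card ≤ C * (N + N) ^ κ ∧ ∀ q, q ∈ Fa ↔ a ∈ Bad q := fun a => by
    by_cases ha : a ∈ (box n (N + N)).filter (· ∉ Y)
    · obtain ⟨Fa, h3⟩ := exists_finset {q | a ∈ Bad q} _ (h0 (N + N) (by omega) a
        (mem_filter.1 ha).1 fun h => (mem_filter.1 ha).2 (hY h))
      exact ⟨Fa, fun _ => h3⟩
    · exact ⟨∅, fun h => absurd h ha⟩
  choose Fa hFa using hex
  obtain ⟨a, ha, h3, h4⟩ := hc' i _ N rfl (le_trans (Nat.mul_le_mul_right _ (by omega)) hi') hN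
    (U ∪ (box n (N + N)).filter (· ∈ Y)) (by
      have h3 := hN₀ (N + N) (by omega)
      have h4 := DensP.card_box_add_le n N N le_rfl
      refine Nat.le_of_mul_le_mul_left ?_ (show 0 < 2 * 2 ^ n by positivity)
      have := Nat.mul_le_mul_left (16 * 2 ^ n) (card_union_le U ((box n (N + N)).filter (· ∈ Y)))
      nlinarith)
    ((((box n (N + N)).filter (· ∉ Y)).biUnion Fa).filter fun q => ¬ 2 ^ n * (box n (N + N)).card ≤
      (2 ^ (j₀ + s)) ^ (4 * κ) * ((box n (N + N)).filter (· ∈ Bad q)).card)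
    ((card_filter_le _ _).trans ((card_biUnion_le_card_mul _ _ _ fun a ha => (hFa a ha).1).trans
      (Nat.mul_le_mul_right _ (card_filter_le _ _)))) fun q hq => by
      have := (not_le.1 (mem_filter.1 hq).2).le
      rwa [← hs, ← hx, ← pow_mul, show 2 * (4 * κ) = 8 * κ by ring] at this
  have h5 : a ∉ Y := fun h => h3 (mem_union_right _ (mem_filter.2 ⟨ha, h⟩))
  refine ⟨a, h5, fun q hq hb => h4 q (mem_filter.2 ⟨mem_biUnion.2
    ⟨a, mem_filter.2 ⟨ha, h5⟩, ((hFa a (mem_filter.2 ⟨ha, h5⟩)).2 q).2 hb⟩, fun h6 =>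
      h3 (mem_union_left _ (mem_filter.2 ⟨ha, q, hq, h6, hb⟩))⟩) hb⟩

end Pool.Agent.P.MP_84b56d_ag.Z
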