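import Pool.Agent.P.MP_84b56d_ag.Loc

/-! Divisibility of determinants whose rows are congruent to vectors of a small subspace. -/

open Module

namespace Pool.Agent.P.MP_84b56d_ag.Z

variable {k : Type*} [Field k]

theorem det_mem_prin_of_rank {ι : Type*} [Fintype ι] [DecidableEq ι] (O : Subring k) (p : k)
    (hp : p ∈ O) (M : Matrix ι ι k) (hM : ∀ i j, M i j ∈ O) (I : Finset ι)
    (V : Submodule k (ι → k)) (h : ∀ i ∈ I, ∃ u ∈ V, ∀ j, M i j - u j ∈ prin O p) :
    M.det ∈ prin O (p ^ (I.card - finrank k V)) := by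
  choose! u hu hu' using h
  have h2 : ∀ i ∈ I, ∀ j, ∃ y ∈ O, M i j - u i j = p * y := hu'
  choose! N hN hN' using h2
  let m : ι → ι → k := fun i => if i ∈ I then u i else M i
  let m' : ι → ι → k := fun i => if i ∈ I then p • N i else 0
  have hmO : ∀ i j, m i j ∈ O := by
    intro i j
    by_cases hi : i ∈ I
    · simp only [m, if_pos hi]
      rw [show u i j = M i j - p * N i j by rw [← hN' i hi j]; ring]
      exact O.sub_mem (hM i j) (O.mul_mem hp (hN i hi j))
    · simp only [m, if_neg hi]; exact hM i j
  have e : M.det = (Matrix.detRowAlternating (n := ι) (R := k)).toMultilinearMap (m + m') := by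
    change _ = Matrix.det (Matrix.of (m + m'))
    congr 1
    ext i j
    by_cases hi : i ∈ I
    · simp only [m, m', Matrix.of_apply, Pi.add_apply, if_pos hi, Pi.smul_apply, smul_eq_mul]
      rw [← hN' i hi j]; ring
    · simp [m, m', hi]
  rw [e, MultilinearMap.map_add_univ]
  refine AddSubgroup.sum_mem _ fun s _ => ?_
  by_cases hs : finrank k V < (I ∩ s).card
  · have : ¬ LinearIndependent k (s.piecewise m m') := by
      intro hli
      have h1 := hli.comp (fun i : (I ∩ s : Finset ι) => (i : ι)) Subtype.val_injective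
      have hmem : ∀ i : (I ∩ s : Finset ι), s.piecewise m m' i ∈ V := fun i => by
        obtain ⟨h1, h2⟩ := Finset.mem_inter.1 i.2
        rw [Finset.piecewise_eq_of_mem _ _ _ h2]
        simp only [m, if_pos h1]
        exact hu i h1
      have h3 : LinearIndependent k fun i : (I ∩ s : Finset ι) =>
          (⟨s.piecewise m m' i, hmem i⟩ : V) := LinearIndependent.of_comp V.subtype h1
      have := h3.fintype_card_le_finrank
      rw [Fintype.card_coe] at this
      omega
    have h0 := (Matrix.detRowAlternating (n := ι) (R := k)).map_linearDependent _ this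
    change (Matrix.detRowAlternating (n := ι) (R := k)) _ ∈ _
    rw [h0]
    exact AddSubgroup.zero_mem _
  · let d : ι → k := fun i => if i ∈ I \ s then p else 1
    let M' : Matrix ι ι k := fun i j => if i ∈ s then m i j else if i ∈ I then N i j else 0
    have e2 : s.piecewise m m' = fun i j => d i * M' i j := by
      funext i j
      by_cases h1 : i ∈ s <;> by_cases h2 : i ∈ I <;> simp [d, M', m', h1, h2]
    change Matrix.det (Matrix.of (s.piecewise m m')) ∈ _
    rw [e2, Matrix.det_mul_column]
    have hd : ∏ i, d i = p ^ (I \ s).card := by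
      simp only [d]
      rw [Finset.prod_ite_mem, Finset.univ_inter, Finset.prod_const]
    rw [hd]
    have hc := Finset.card_sdiff_add_card_inter I s
    refine prin_pow_anti hp (show I.card - finrank k V ≤ (I \ s).card by omega)
      ⟨_, det_mem O _ fun i j => ?_, rfl⟩
    simp only [M']
    split_ifs with h1 h2
    · exact hmO i j
    · exact hN i h2 j
    · exact O.zero_mem

theorem exists_det_ne' {ι : Type*} [Fintype ι] [DecidableEq ι] (𝒞 Ω : Set (ι → k))
    (h : ∀ a : ι → k, (∀ v ∈ Ω, ∑ j, v j * a j = 0) → a = 0) :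
    ∃ (M : Matrix ι ι k) (I : Finset ι), M.det ≠ 0 ∧
      I.card = finrank k (Submodule.span k 𝒞) ∧ (∀ i ∈ I, M i ∈ 𝒞) ∧ ∀ i, i ∉ I → M i ∈ Ω := by
  classical
  have htop : Submodule.span k Ω = ⊤ := by
    obtain ⟨M, hM, hdet⟩ := exists_det_ne Ω h
    have hli : LinearIndependent k M.row := Matrix.linearIndependent_rows_iff_isUnit.2
      ((Matrix.isUnit_iff_isUnit_det _).2 (Ne.isUnit hdet))
    rcases isEmpty_or_nonempty ι with hι | hι
    · exact Subsingleton.elim _ _
    have := hli.span_eq_top_of_card_eq_finrank (by simp)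
    rw [eq_top_iff, ← this]
    exact Submodule.span_mono (by rintro _ ⟨i, rfl⟩; exact hM i)
  obtain ⟨s, hs, hsp, hli⟩ := exists_linearIndependent k 𝒞
  obtain ⟨b, hb, hsb, hsp', hli'⟩ := exists_linearIndepOn_id_extension (t := s ∪ Ω) hli
    Set.subset_union_left
  let B : Module.Basis b k (ι → k) := Module.Basis.mk hli' (by
    rw [← htop, Submodule.span_le]
    refine (Set.subset_union_right.trans hsp').trans (Submodule.span_mono ?_)
    intro v hv
    exact ⟨⟨v, hv⟩, rfl⟩)
  let e : ι ≃ b := (Pi.basisFun k ι).indexEquiv B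
  refine ⟨fun i => (e i : ι → k), Finset.univ.filter fun i => (e i : ι → k) ∈ s, ?_, ?_,
    fun i hi => hs (Finset.mem_filter.1 hi).2, fun i hi => (hb (e i).2).resolve_left fun h' =>
      hi (Finset.mem_filter.2 ⟨Finset.mem_univ _, h'⟩)⟩
  · have : LinearIndependent k (Matrix.row (fun i => (e i : ι → k) : Matrix ι ι k)) :=
      hli'.comp e e.injective
    exact ((Matrix.isUnit_iff_isUnit_det _).1
      (Matrix.linearIndependent_rows_iff_isUnit.1 this)).ne_zero
  · have hfin : s.Finite := hli.setFinite
    have := hfin.fintype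
    rw [← hsp, finrank_span_set_eq_card hli, Set.toFinset_card, ← Fintype.card_coe]
    refine Fintype.card_congr ⟨fun i => ⟨e i, (Finset.mem_filter.1 i.2).2⟩,
      fun v => ⟨e.symm ⟨v, hsb v.2⟩, by simp⟩, fun i => by simp, fun v => by simp⟩

end Pool.Agent.P.MP_84b56d_ag.Z
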