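import Pool.Agent.P.MP_84b56d_ag.Zero
import Pool.Agent.P.MP_84b56d_ag.Dens

/-! The zero estimate and the sparsity of closed subsets, without nondegenerate points. -/

open MvPolynomial TopologicalSpace

namespace Pool.Agent.P.MP_84b56d_ag.Z

variable {k : Type*} {σ : Type} {G : Type*} [Field k] [AddCommGroup G] [TopologicalSpace G]
  (c : Ctx k σ G)

theorem zero_estimate [IsAlgClosed k] [Finite σ] [IrreducibleSpace G] (g : ℕ)
    (hg : td (c.I Set.univ) = g + 1) :
    ∃ C : ℕ, ∀ (m : ℕ) (f : MvPolynomial σ k), 1 ≤ m → f.IsHomogeneous m → f ∉ c.I Set.univ →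
      ∀ S : Finset G, (0 : G) ∈ S → ∀ n : ℕ, (∀ W : Set G, IsClosed W → W.Nonempty →
        W ≠ Set.univ → ∃ S' ⊆ S, n ≤ S'.card ∧
          ∀ a ∈ S', ∀ b ∈ S', a ≠ b → ¬ ∀ w ∈ W, w + (a - b) ∈ W) →
        (∀ τ : Fin g → G, (∀ i, τ i ∈ S) → ∀ w ∈ c.rep (∑ i, τ i), eval w f = 0) →
        n ≤ C * m ^ g := by
  classical
  have := c.noetherianSpace
  have := c.t1Space
  have := c.sepCont
  obtain ⟨C, hC⟩ := c.comp_count
  obtain ⟨D, hD1, hD⟩ := c.cut
  refine ⟨C * (2 * D) ^ g, fun m f hm hf hfI S h0 n hS hvan => ?_⟩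
  choose T hT hT' using hD f m hf
  let Y : ℕ → Set G := fun j => {x | ∀ τ : Fin j → G, (∀ i, τ i ∈ S) →
    ∀ w ∈ c.rep (x + ∑ i, τ i), eval w f = 0}
  let U : ℕ → Set (MvPolynomial σ k) := fun j =>
    {h | ∃ τ : Fin j → G, (∀ i, τ i ∈ S) ∧ h ∈ T (∑ i, τ i)}
  have hYU : ∀ j, Y j = {x | ∀ h ∈ U j, ∀ v ∈ c.rep x, eval v h = 0} := by
    intro j
    ext x
    constructor
    · rintro hx h ⟨τ, hτ, hh⟩ v hv
      exact (hT' _ x v hv).2 (hx τ hτ) h hh
    · intro hx τ hτ
      obtain ⟨v, hv⟩ := c.nonempty x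
      exact (hT' _ x v hv).1 fun h hh => hx h ⟨τ, hτ, hh⟩ v hv
  have hYc : ∀ j, IsClosed (Y j) := fun j => hYU j ▸ c.isClosed_zero _
  have hstep : ∀ j, ∀ x ∈ Y (j + 1), ∀ s ∈ S, x + s ∈ Y j := by
    intro j x hx s hs τ hτ w hw
    refine hx (Fin.cons s τ) (fun i => ?_) w ?_
    · refine Fin.cases ?_ (fun i => ?_) i
      · simpa using hs
      · simpa using hτ i
    · rw [Fin.sum_univ_succ]
      simpa [add_assoc] using hw
  have hne : ∀ j, Y j ≠ Set.univ := by
    intro j
    induction j with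
    | zero =>
      intro h
      refine hfI fun y _ w hw => ?_
      have hy : y ∈ Y 0 := h ▸ Set.mem_univ y
      exact hy (fun i => i.elim0) (fun i => i.elim0) w (by simpa using hw)
    | succ j ih =>
      intro h
      refine ih (Set.eq_univ_of_forall fun x => ?_)
      simpa using hstep j x (h ▸ Set.mem_univ x) 0 h0
  have key : ∃ j, ∃ W : Set G, IsClosed W ∧ IsIrreducible W ∧
      ∀ s ∈ S, IsComp (Y j) (Homeomorph.addRight s '' W) := by
    by_contra hcon
    push Not at hcon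
    have hch : ∀ i, i ≤ g → ∃ W, Ch i W ∧ W ⊆ Y (g - i) := by
      intro i
      induction i with
      | zero =>
        intro _
        refine ⟨{0}, Ch.zero _ isClosed_singleton isIrreducible_singleton, ?_⟩
        rintro _ rfl τ hτ w hw
        exact hvan τ hτ w (by simpa using hw)
      | succ i ih =>
        intro hi
        obtain ⟨W, hW, hWY⟩ := ih (by omega)
        obtain ⟨s, hs, hn⟩ := hcon (g - (i + 1)) W hW.ci.1 hW.ci.2
        have hW' := hW.image (Homeomorph.addRight s)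
        have hsub : Homeomorph.addRight s '' W ⊆ Y (g - (i + 1)) := by
          rintro _ ⟨x, hx, rfl⟩
          refine hstep _ x ?_ s hs
          rw [show g - (i + 1) + 1 = g - i by omega]
          exact hWY hx
        have : ∃ W', IsIrreducible W' ∧ Homeomorph.addRight s '' W ⊆ W' ∧ W' ⊆ Y (g - (i + 1)) ∧
            ¬ W' ⊆ Homeomorph.addRight s '' W := by
          by_contra h
          push Not at h
          exact hn ⟨hW'.ci.2, hW'.ci.1, hsub, h⟩
        obtain ⟨W', h1, h2, h3, h4⟩ := this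
        refine ⟨closure W', Ch.succ i _ _ hW' ⟨h2.trans subset_closure,
          fun h => h4 (subset_closure.trans h)⟩ isClosed_closure h1.closure,
          closure_minimal h3 (hYc _)⟩
    obtain ⟨W, hW, hWY⟩ := hch g le_rfl
    have h2 : Ch (g + 1) (Set.univ : Set G) := Ch.succ g W _ hW
      ⟨Set.subset_univ _, fun h => hne _ (Set.eq_univ_of_univ_subset (h.trans hWY))⟩
      isClosed_univ (IrreducibleSpace.isIrreducible_univ G)
    have := c.ch_le h2
    omega
  obtain ⟨j, W, hWc, hWi, hW⟩ := key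
  obtain ⟨S', hS', hn, hmv⟩ := hS W hWc hWi.nonempty fun hu => by
    refine hne j (Set.eq_univ_of_univ_subset ?_)
    refine Set.Subset.trans ?_ (hW 0 h0).2.2.1
    rw [hu, Set.image_univ, (Homeomorph.addRight 0).surjective.range_eq]
  have hinj : Set.InjOn (fun s => Homeomorph.addRight s '' W) (S' : Set G) := by
    intro s hs s' hs' he
    by_contra hss
    refine hmv s hs s' hs' hss fun w hw => ?_
    have : w + s ∈ Homeomorph.addRight s' '' W := by
      rw [← show Homeomorph.addRight s '' W = Homeomorph.addRight s' '' W from he]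
      exact ⟨w, hw, rfl⟩
    obtain ⟨w', hw', e⟩ := this
    have e' : w' + s' = w + s := e
    rw [show w + (s - s') = w' by rw [← add_sub_assoc, ← e']; simp]
    exact hw'
  refine hn.trans ?_
  rw [← Finset.card_image_of_injOn hinj]
  have := hC (D * (m + 1)) (by nlinarith) (U j) ?_ (S'.image fun s => Homeomorph.addRight s '' W) ?_
  · refine this.trans ?_
    rw [hg, Nat.add_sub_cancel, mul_assoc, ← mul_pow]
    refine Nat.mul_le_mul_left _ (Nat.pow_le_pow_left ?_ _)
    nlinarith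
  · rintro h ⟨τ, -, hh⟩
    exact hT _ h hh
  · intro W' hW'
    obtain ⟨s, hs, rfl⟩ := Finset.mem_image.1 hW'
    rw [← hYU]
    exact hW s (hS' hs)

open DensP

omit [TopologicalSpace G] in
open Classical in
theorem segments {r : ℕ} {u : Fin r → ℤ} (hu : u ∈ box r 1) (φ : (Fin r → ℤ) →+ G) (Y : Set G)
    (N M : ℕ) :
    M * ((box r N).filter fun a => φ a ∈ Y ∧
      ∀ j ∈ Finset.Ico 1 M, φ a + φ (j • u) ∉ Y).card ≤
      (box r (N + M)).card := by
  set B := (box r N).filter fun a => φ a ∈ Y ∧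
      ∀ j ∈ Finset.Ico 1 M, φ a + φ (j • u) ∉ Y with hB
  have hcard : (Finset.range M ×ˢ B).card = M * B.card := by simp
  rw [← hcard]
  have key : ∀ (j j' : ℕ) (a a' : Fin r → ℤ), j' < M → a ∈ B → a' ∈ B → j < j' →
      a + j • u = a' + j' • u → False := by
    intro j j' a a' hj' ha ha' hlt heq
    rw [hB, Finset.mem_filter] at ha ha'
    have h1 : a = a' + (j' - j) • u := by
      have : j' • u = (j' - j) • u + j • u := by
        rw [← add_nsmul, Nat.sub_add_cancel hlt.le]
      rw [this, ← add_assoc] at heq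
      exact add_right_cancel heq
    refine ha'.2.2 (j' - j) (Finset.mem_Ico.2 ⟨by omega, by omega⟩) ?_
    have h2 := ha.2.1
    rw [h1, map_add] at h2
    exact h2
  refine Finset.card_le_card_of_injOn (fun p => p.2 + p.1 • u) ?_ ?_
  · rintro ⟨j, a⟩ hp
    simp only [Finset.coe_product, Set.mem_prod, Finset.mem_coe, Finset.mem_range] at hp
    obtain ⟨hj, ha⟩ := hp
    rw [hB, Finset.mem_filter] at ha
    have ha1 := mem_box.1 ha.1
    refine Finset.mem_coe.2 (mem_box.2 fun i => ?_)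
    have h1 := ha1 i
    have h2 := mem_box.1 hu i
    beta_reduce
    rw [Pi.add_apply, Pi.smul_apply, nsmul_eq_mul]
    have h3 : (j : ℤ) ≤ M := by exact_mod_cast hj.le
    push_cast at h2 ⊢
    constructor <;> nlinarith [Int.natCast_nonneg j]
  · rintro ⟨j, a⟩ hp ⟨j', a'⟩ hp' heq
    simp only [Finset.coe_product, Set.mem_prod, Finset.mem_coe, Finset.mem_range] at hp hp'
    simp only at heq
    rcases lt_trichotomy j j' with h | h | h
    · exact (key j j' a a' hp'.1 hp.2 hp'.2 h heq).elim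
    · subst h
      have := add_right_cancel heq
      rw [this]
    · exact (key j' j a' a hp.1 hp'.2 hp.2 h heq.symm).elim

open Classical in
theorem sparse [NoetherianSpace G] [SeparatelyContinuousAdd G] {r : ℕ} (φ : (Fin r → ℤ) →+ G)
    (hφ : ∀ W : Set G, IsClosed W → W.Nonempty → W ≠ Set.univ → ∃ u ∈ box r 1,
      ∀ j : ℕ, 1 ≤ j → ¬ ∀ w ∈ W, w + φ (j • u) ∈ W) (Y : Closeds G) :
    (Y : Set G) ≠ Set.univ → ∀ L : ℕ, ∃ N₀ : ℕ, ∀ N, N₀ ≤ N →
      L * ((box r N).filter fun a => φ a ∈ (Y : Set G)).card ≤ (box r N).card := by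
  induction Y using (wellFounded_lt (α := Closeds G)).induction with
  | _ Y ih =>
  intro hY L
  rcases Set.eq_empty_or_nonempty (Y : Set G) with hne | hne
  · refine ⟨0, fun N _ => ?_⟩
    simp [hne]
  obtain ⟨u, hu, hmv⟩ := hφ Y Y.isClosed hne hY
  set M := 2 * L * 2 ^ r with hM
  have hcl : ∀ j : ℕ,
      IsClosed ((Y : Set G) ∩ {y | y + φ (j • u) ∈ (Y : Set G)}) := fun j =>
    Y.isClosed.inter (Y.isClosed.preimage (continuous_add_const _))
  have hj : ∀ j : ℕ, ∃ N₀ : ℕ, 1 ≤ j → ∀ N, N₀ ≤ N →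
      2 * L * M * ((box r N).filter fun a => φ a ∈ (Y : Set G) ∧
        φ a + φ (j • u) ∈ (Y : Set G)).card ≤ (box r N).card := by
    intro j
    by_cases h1 : 1 ≤ j
    · have hlt : (⟨_, hcl j⟩ : Closeds G) < Y := by
        refine lt_of_le_of_ne (fun y hy => hy.1) fun heq => hmv j h1 fun w hw => ?_
        have hw' : w ∈ (⟨_, hcl j⟩ : Closeds G) := by rw [heq]; exact hw
        exact hw'.2
      obtain ⟨N₀, hN₀⟩ := ih _ hlt
        (fun h => hY (Set.eq_univ_of_univ_subset (h ▸ Set.inter_subset_left))) (2 * L * M)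
      refine ⟨N₀, fun _ N hN => ?_⟩
      convert hN₀ N hN using 4
      rfl
    · exact ⟨0, fun h => (h1 h).elim⟩
  choose N₀ hN₀ using hj
  refine ⟨M + ∑ j ∈ Finset.Ico 1 M, N₀ j, fun N hN => ?_⟩
  have hMN : M ≤ N := by omega
  set B := (box r N).filter fun a => φ a ∈ (Y : Set G) ∧
      ∀ j ∈ Finset.Ico 1 M, φ a + φ (j • u) ∉ (Y : Set G) with hB
  set A : ℕ → Finset (Fin r → ℤ) := fun j => (box r N).filter fun a => φ a ∈ (Y : Set G) ∧
        φ a + φ (j • u) ∈ (Y : Set G) with hA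
  have hsub : ((box r N).filter fun a => φ a ∈ (Y : Set G)) ⊆
      B ∪ (Finset.Ico 1 M).biUnion A := by
    intro a ha
    rw [Finset.mem_filter] at ha
    by_cases h : ∀ j ∈ Finset.Ico 1 M, φ a + φ (j • u) ∉ (Y : Set G)
    · exact Finset.mem_union_left _ (Finset.mem_filter.2 ⟨ha.1, ha.2, h⟩)
    · push Not at h
      obtain ⟨j, hj, hj'⟩ := h
      exact Finset.mem_union_right _
        (Finset.mem_biUnion.2 ⟨j, hj, Finset.mem_filter.2 ⟨ha.1, ha.2, hj'⟩⟩)
  have h1 : ((box r N).filter fun a => φ a ∈ (Y : Set G)).card ≤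
      B.card + ∑ j ∈ Finset.Ico 1 M, (A j).card :=
    (Finset.card_le_card hsub).trans ((Finset.card_union_le _ _).trans
      (Nat.add_le_add_left Finset.card_biUnion_le _))
  have h2 : 2 * L * B.card ≤ (box r N).card := by
    have h3 : M * B.card ≤ 2 ^ r * (box r N).card :=
      (segments hu φ (Y : Set G) N M).trans (card_box_add_le r N M hMN)
    have h4 : 2 ^ r * (2 * L * B.card) ≤ 2 ^ r * (box r N).card := by
      calc 2 ^ r * (2 * L * B.card) = M * B.card := by rw [hM]; ring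
        _ ≤ _ := h3
    exact Nat.le_of_mul_le_mul_left h4 (by positivity)
  have h5 : 2 * L * ∑ j ∈ Finset.Ico 1 M, (A j).card ≤ (box r N).card := by
    rcases Nat.eq_zero_or_pos M with h0 | h0
    · simp [h0]
    have h6 : M * (2 * L * ∑ j ∈ Finset.Ico 1 M, (A j).card) ≤ M * (box r N).card := by
      calc M * (2 * L * ∑ j ∈ Finset.Ico 1 M, (A j).card)
          = ∑ j ∈ Finset.Ico 1 M, 2 * L * M * (A j).card := by
            rw [← Finset.mul_sum]; ring
        _ ≤ ∑ _j ∈ Finset.Ico 1 M, (box r N).card := by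
            refine Finset.sum_le_sum fun j hj => hN₀ j (Finset.mem_Ico.1 hj).1 N ?_
            have := Finset.single_le_sum (f := N₀) (fun _ _ => Nat.zero_le _) hj
            omega
        _ = (M - 1) * (box r N).card := by simp
        _ ≤ M * (box r N).card := Nat.mul_le_mul_right _ (Nat.sub_le _ _)
    exact Nat.le_of_mul_le_mul_left h6 h0
  have h7 := Nat.mul_le_mul_left (2 * L) h1
  rw [mul_add] at h7
  have h8 : 2 * (L * ((box r N).filter fun a => φ a ∈ (Y : Set G)).card) ≤
      2 * (box r N).card := by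
    rw [← mul_assoc]; omega
  omega

end Pool.Agent.P.MP_84b56d_ag.Z
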