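import Pool.Agent.P.MP_84b56d_ag.Z.Ops
import Pool.Agent.P.MP_84b56d_ag.Z.Rank
import Pool.Agent.P.MP_84b56d_ag.Z.ZeroZ
import Pool.Agent.P.MP_84b56d_ag.Det

/-! The determinant estimate with auxiliary conditions on translates of a closed subset. -/

open MvPolynomial Module

namespace Pool.Agent.P.MP_84b56d_ag.Z

variable {k : Type*} {σ : Type} {G : Type*} [Field k] [AddCommGroup G] [TopologicalSpace G]
  (c : Ctx k σ G)

theorem exists_cs [Finite σ] {d : ℕ} {Θ : Type} [Finite Θ] (o : Θ → Op k σ d) :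
    ∃ C₁ : ℕ, ∀ (E : Set k) (A : Arith k E), (∀ θ, (o θ).Co E) → ∃ b D : ℕ,
      ∀ (ι : Type) (L : ι → List σ) (m : ℕ), (∀ n, (L n).length = m) → ∀ w : σ → k,
        ∃ CS : Finset (ι → k), CS.card ≤ C₁ * (m + 1) ^ d ∧
          (∀ S, (∀ i, A.Sm S (w i)) → ∀ u ∈ CS, ∀ n, A.Sm ((m + 1) * (b + D * S)) (u n)) ∧
          ∀ O J, Loc O J → E ⊆ O → ∀ θ j x, w j ≠ 0 → (∀ l, ((w j)⁻¹ • w) l ∈ O) →
            (∀ l, x l ∈ O) → (o θ).Rel O J ((w j)⁻¹ • w) x →
            ∃ u ∈ Submodule.span k (CS : Set (ι → k)), ∀ n, ((L n).map x).prod - u n ∈ J := by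
  classical
  have := Fintype.ofFinite σ
  have := Fintype.ofFinite Θ
  choose D' hD' using fun θ => (o θ).deg
  refine ⟨∑ θ, Fintype.card σ * ((o θ).N * (D' θ + 1) ^ d), fun E A hE => ?_⟩
  choose b D hbD using fun θ => (o θ).size A (hE θ)
  refine ⟨Finset.univ.sup b, Finset.univ.sup D, fun ι L m hL w => ?_⟩
  let F : ∀ θ, σ × Fin (o θ).N × (Fin d →₀ ℕ) → ι → k := fun θ p =>
    ((A.h : k) ^ (m + 1) * w p.1 ^ (D θ * m)) •
      fun n => coeff p.2.2 ((o θ).vec ((w p.1)⁻¹ • w) (L n) p.2.1)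
  refine ⟨Finset.univ.biUnion fun θ => ((Finset.univ.filter fun j => w j ≠ 0) ×ˢ Finset.univ ×ˢ
    mon d (D' θ * (m + 1))).image (F θ), ?_, fun S hS u hu n => ?_,
    fun O J hJ hO θ j x hj hw hx h => ?_⟩
  · refine Finset.card_biUnion_le.trans ?_
    rw [Finset.sum_mul]
    refine Finset.sum_le_sum fun θ _ => Finset.card_image_le.trans ?_
    rw [Finset.card_product, Finset.card_product, card_mon, Finset.card_univ, Fintype.card_fin,
      mul_assoc, mul_assoc, ← mul_pow]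
    exact Nat.mul_le_mul (Finset.card_le_univ _)
      (Nat.mul_le_mul_left _ (Nat.pow_le_pow_left (by nlinarith) _))
  · obtain ⟨θ, -, hu⟩ := Finset.mem_biUnion.1 hu
    obtain ⟨p, hp, rfl⟩ := Finset.mem_image.1 hu
    have := hbD θ S w (w p.1) hS (hS _) (Finset.mem_filter.1 (Finset.mem_product.1 hp).1).2
      (L n) p.2.1 p.2.2
    rw [hL] at this
    exact this.mono (Nat.mul_le_mul_left _ (Nat.add_le_add (Finset.le_sup (Finset.mem_univ θ))
      (Nat.mul_le_mul_right _ (Finset.le_sup (Finset.mem_univ θ)))))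
  · obtain ⟨u, hu, h'⟩ := (o θ).span hJ ((hE θ).mono hO) hw hx h L (T := D' θ * (m + 1))
      fun n a => hL n ▸ hD' θ _ _ a
    refine ⟨u, Submodule.span_le.2 ?_ hu, h'⟩
    rintro _ ⟨a, m', hm', rfl⟩
    have hh : (A.h : k) ≠ 0 := fun h => A.h_ne (Subtype.ext h)
    refine (Submodule.smul_mem_iff _
      (mul_ne_zero (pow_ne_zero (m + 1) hh) (pow_ne_zero (D θ * m) hj))).1
      (Submodule.subset_span (Finset.mem_coe.2 (Finset.mem_biUnion.2 ⟨θ, Finset.mem_univ _,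
        Finset.mem_image.2 ⟨(j, a, m'), ?_, rfl⟩⟩)))
    simp [hj, hm']

theorem exists_list {τ : Type*} (s : Finset τ) (e : τ → σ) (ex : τ → ℕ) :
    ∃ L : List σ, L.length = ∑ j ∈ s, ex j ∧
      ∀ x : σ → k, (L.map x).prod = ∏ j ∈ s, x (e j) ^ ex j := by
  classical
  induction s using Finset.induction_on with
  | empty => exact ⟨[], rfl, fun _ => rfl⟩
  | insert i s hi ih =>
    obtain ⟨L, h1, h2⟩ := ih
    exact ⟨List.replicate (ex i) (e i) ++ L, by simp [hi, h1], fun x => by simp [hi, h2]⟩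

open Classical in
theorem det_main [IsAlgClosed k] [Finite σ] [IrreducibleSpace G] (g : ℕ)
    (hg : td (c.I Set.univ) = g + 1) (hg1 : 1 ≤ g) (b : Set (MvPolynomial σ k))
    (hb : ∀ f ∈ b, ∃ d, f.IsHomogeneous d) (d : ℕ)
    (hd : ∀ W, IsClosed W → IsIrreducible W → W ⊆ ZS c b → td (c.I W) ≤ d + 1) :
    ∃ (C₀ C₁ : ℕ) (E₁ : Set k), E₁.Finite ∧ ∀ (E : Set k) (A : Arith k E), E₁ ⊆ E → ∃ C : ℕ,
      ∀ (Γ : Type) [AddCommGroup Γ] (φ : Γ →+ G), (∀ q a, ∃ v ∈ c.rep (φ a), Prim (A.O q) v) →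
      (∀ a, ∃ v ∈ c.rep (φ a), ∀ l, v l ∈ A.R) → ∀ μ L : ℕ, 1 ≤ μ → ∀ S : Finset Γ, 0 ∈ S →
      (∀ W : Set G, IsClosed W → W.Nonempty → W ≠ Set.univ → ∃ S' ⊆ S, C₀ * μ ^ g < S'.card ∧
        ∀ a ∈ S', ∀ a' ∈ S', a ≠ a' → ¬ ∀ w ∈ W, w + φ (a - a') ∈ W) →
      (∀ τ : Fin g → Γ, (∀ i, τ i ∈ S) → ∃ v ∈ c.rep (φ (∑ i, τ i)), ∀ l, A.Sm L (v l)) →
      ∀ Ω : Finset Γ, (∀ t ∈ Ω, ∃ w ∈ c.rep (φ (-t)), ∀ l, A.Sm L (w l)) →
      ∃ (I : Finset (Fin g → Fin (μ + 1))) (p : (Fin g → Fin (μ + 1)) → Γ),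
        (∀ i ∈ I, ∃ τ : Fin g → Γ, (∀ j, τ j ∈ S) ∧ p i = ∑ j, τ j) ∧
        (μ + 1) ^ g ≤ I.card + C₁ * μ ^ d * Ω.card ∧ ∀ (Q : Finset A.Pr) (e : ℕ),
          (∀ q ∈ Q, ∃ T : Finset Γ, e + C₁ * μ ^ d * T.card ≤
            (I.filter fun i => ∃ t ∈ Ω ∪ T, BadG c b (A.O q) (A.M q) (φ (p i + t))).card) →
          e * Q.card ≤ C * (μ + 1) ^ g * μ * (L + 1) := by
  have := c.isPrime_I (IrreducibleSpace.isIrreducible_univ G)
  obtain ⟨C₀, hC₀⟩ := zero_estimate c g hg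
  obtain ⟨e, he⟩ : ∃ e : Fin (g + 1) → σ,
      AlgebraicIndependent k fun j => Ideal.Quotient.mk (c.I Set.univ) (X (e j)) := by
    have := td_basis (c.I Set.univ)
    rwa [hg] at this
  obtain ⟨o, E₁, hE₁, hco, hops⟩ := exists_ops c b hb d hd
  obtain ⟨E₂, hE₂, -, hgood⟩ := c.exists_good
  obtain ⟨C₁, hC₁⟩ := exists_cs o
  refine ⟨C₀ * g ^ g, C₁ * (g + 1) ^ d, E₁ ∪ E₂, hE₁.union hE₂, fun E A hE => ?_⟩
  rw [Set.union_subset_iff] at hE
  obtain ⟨B, D, hBD⟩ := hC₁ E A fun θ => (hco θ).mono hE.1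
  refine ⟨A.C * ((g + 1) * (B + D) + g + 1),
    fun Γ _ φ hprim hint μ L hμ S h0 hS hsm Ω hΩ => ?_⟩
  let ι := Fin g → Fin (μ + 1)
  choose Ls hL1 hL2 using fun n : ι => exists_list (k := k) Finset.univ e (expo g μ n)
  simp only [sum_expo] at hL1
  have hw : ∀ t, ∃ w ∈ c.rep (φ (-t)), (∀ l, w l ∈ A.R) ∧ (t ∈ Ω → ∀ l, A.Sm L (w l)) := by
    intro t
    by_cases ht : t ∈ Ω
    · obtain ⟨w, h1, h2⟩ := hΩ t ht
      exact ⟨w, h1, fun l => (h2 l).1, fun _ => h2⟩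
    · obtain ⟨w, h1, h2⟩ := hint (-t)
      exact ⟨w, h1, h2, fun h => absurd h ht⟩
  choose w hw1 hw2 hw3 using hw
  choose CS hc1 hc2 hc3 using fun t => hBD ι Ls (g * μ) hL1 (w t)
  have hcard : ∀ T : Finset Γ, finrank k (Submodule.span k (T.biUnion CS : Set (ι → k))) ≤
      C₁ * (g + 1) ^ d * μ ^ d * T.card := fun T => by
    refine (finrank_span_finset_le_card _).trans
      ((Finset.card_biUnion_le_card_mul _ _ _ fun t _ => hc1 t).trans ?_)
    rw [mul_comm, mul_assoc C₁ ((g + 1) ^ d), ← mul_pow]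
    exact Nat.mul_le_mul_right _
      (Nat.mul_le_mul_left _ (Nat.pow_le_pow_left (by nlinarith) _))
  let row : (σ → k) → ι → k := fun v n => ∏ j, v (e j) ^ expo g μ n j
  let Ωr : Set (ι → k) := {ρ | ∃ τ : Fin g → Γ, (∀ i, τ i ∈ S) ∧ ∃ v ∈ c.rep (φ (∑ i, τ i)),
    (∀ l, A.Sm L (v l)) ∧ ρ = row v}
  obtain ⟨M, I₀, hdet, hI₀, hM₀, hM⟩ := exists_det_ne' (Ω.biUnion CS : Set (ι → k)) Ωr
    fun a ha => by
    by_contra hne
    let f : MvPolynomial σ k := ∑ n, C (a n) * ∏ j, X (e j) ^ expo g μ n j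
    have hf : f.IsHomogeneous (g * μ) := by
      refine IsHomogeneous.sum _ _ _ fun n _ => IsHomogeneous.C_mul ?_ _
      rw [← sum_expo g μ n]
      exact IsHomogeneous.prod _ _ _ fun j _ => isHomogeneous_X_pow _ _
    have hfI : f ∉ c.I Set.univ := fun h => hne (indep_mono e he _ (expo_inj g μ) a h)
    have := hC₀ (g * μ) f (Nat.mul_pos hg1 hμ) hf hfI (S.image φ)
      (Finset.mem_image.2 ⟨0, h0, map_zero _⟩) (C₀ * g ^ g * μ ^ g + 1) (fun W h1 h2 h3 => by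
        obtain ⟨S', h4, h5, h6⟩ := hS W h1 h2 h3
        refine ⟨S'.image φ, Finset.image_subset_image h4, ?_, fun a ha a' ha' haa => ?_⟩
        · rwa [Finset.card_image_of_injOn fun a ha a' ha' haa => by_contra fun h =>
            h6 a ha a' ha' h fun w hw => by rwa [map_sub, haa, sub_self, add_zero]]
        · obtain ⟨a, h7, rfl⟩ := Finset.mem_image.1 ha
          obtain ⟨a', h8, rfl⟩ := Finset.mem_image.1 ha'
          rw [← map_sub]
          exact h6 a h7 a' h8 fun h => haa (by rw [h])) fun τ hτ w hw => by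
      choose τ' hτ' hτe using fun i => Finset.mem_image.1 (hτ i)
      obtain ⟨v, hv, hvs⟩ := hsm τ' hτ'
      obtain ⟨β, rfl⟩ := c.exists_smul _ v hv w (by simpa only [map_sum, hτe] using hw)
      rw [eval_smul_of_hom hf]
      have h1 := ha _ ⟨τ', hτ', v, hv, hvs, rfl⟩
      have h2 : eval v f = ∑ n, row v n * a n := by
        simp only [f, row, map_sum, map_mul, eval_C, map_prod, map_pow, eval_X]
        exact Finset.sum_congr rfl fun n _ => mul_comm _ _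
      rw [h2, h1, mul_zero]
    rw [mul_pow, ← mul_assoc] at this
    omega
  choose! τ hτ v hv hvs hrow using hM
  have hK : Fintype.card ι = (μ + 1) ^ g := by simp [ι]
  have hK2 : Fintype.card ι ≤ 2 ^ (g * μ) := by
    rw [hK, mul_comm, pow_mul]
    exact Nat.pow_le_pow_left Nat.lt_two_pow_self _
  have hent : ∀ i n, A.Sm ((g * μ + 1) * (B + D * L) + g * μ * L) (M i n) := by
    intro i n
    by_cases hi : i ∈ I₀
    · obtain ⟨t, ht, hu⟩ := Finset.mem_biUnion.1 (hM₀ i hi)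
      exact (hc2 t L (hw3 t ht) _ hu n).mono (Nat.le_add_right _ _)
    · rw [hrow i hi]
      have := Arith.sm_prod_pow Finset.univ (fun j => v i (e j)) (expo g μ n) L
        fun j _ => hvs i hi _
      rw [sum_expo] at this
      exact this.mono (Nat.le_add_left _ _)
  have hsmall := Arith.sm_det M _ _ hK2 hent
  refine ⟨I₀ᶜ, fun i => ∑ j, τ i j, fun i hi => ⟨τ i, hτ i (Finset.mem_compl.1 hi), rfl⟩, ?_,
    fun Q a hQ => ?_⟩
  · have h1 := hcard Ω
    have h2 := Finset.card_add_card_compl I₀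
    rw [← hK]
    omega
  have hcount := A.count' hdet a _ hsmall Q fun q hq => by
    obtain ⟨T, hT⟩ := hQ q hq
    have hL := A.loc q
    have hπ : (A.π q.1 : k) ∈ A.O q := A.R_le_O q (A.π q.1).2
    set I₁ := I₀ᶜ.filter fun i => ∃ t ∈ Ω ∪ T, BadG c b (A.O q) (A.M q) (φ (∑ j, τ i j + t))
    let V := Submodule.span k (Ω.biUnion CS : Set (ι → k)) ⊔
      Submodule.span k (T.biUnion CS : Set (ι → k))
    refine prin_pow_anti hπ (show a ≤ (I₀ ∪ I₁).card - finrank k V from ?_)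
      (det_mem_prin_of_rank _ _ hπ M (fun i n => A.R_le_O q (hent i n).1) _ V fun i hi => ?_)
    · have h1 := Submodule.finrank_add_le_finrank_add_finrank
        (Submodule.span k (Ω.biUnion CS : Set (ι → k)))
        (Submodule.span k (T.biUnion CS : Set (ι → k)))
      have h2 := hcard T
      rw [Finset.card_union_of_disjoint (s := I₀) (t := I₁)
        (disjoint_compl_right.mono_right (Finset.filter_subset _ _))]
      change finrank k V ≤ _ at h1
      omega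
    rcases Finset.mem_union.1 hi with hi | hi
    · exact ⟨M i, Submodule.mem_sup_left (Submodule.subset_span (hM₀ i hi)), fun n => by simp⟩
    obtain ⟨hi, t, ht, hbad⟩ := Finset.mem_filter.1 hi
    rw [Finset.mem_compl] at hi
    obtain ⟨u, hu, pu⟩ := hprim q (-t)
    obtain ⟨β, -, hβ, -⟩ := Ctx.prim_smul hu (hw1 t) pu fun l => A.R_le_O q (hw2 t l)
    obtain ⟨j, hj⟩ := pu.2
    have hβ0 : β ≠ 0 := fun h => c.ne_zero _ _ (hw1 t) (by rw [hβ, h, zero_smul])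
    have hj0 : w t j ≠ 0 := by rw [hβ]; exact mul_ne_zero hβ0 hj.2.1
    have pw : Prim (A.O q) ((w t j)⁻¹ • w t) := by
      refine ⟨fun l => ?_, j, by simpa [hj0] using un_one⟩
      have : ((w t j)⁻¹ • w t) l = (u j)⁻¹ * u l := by
        have := hj.2.1
        simp only [hβ, Pi.smul_apply, smul_eq_mul]
        field_simp
      rw [this]
      exact (A.O q).mul_mem hj.2.2 (pu.1 l)
    obtain ⟨θ, x, hx, px, hrel⟩ := hops _ _ hL (hE.1.trans (A.subset_O q))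
      (hgood _ hL.loc (hE.2.trans (A.subset_O q))) _ _ hbad _
      (c.smul_mem _ _ (hw1 t) _ (inv_ne_zero hj0)) pw
    rw [← map_add, add_neg_cancel_right] at hx
    obtain ⟨y, hy, h'⟩ := hc3 t _ _ hL (A.subset_O q) θ j x hj0 pw.1 px.1 hrel
    obtain ⟨γ, hγ, hγ', -⟩ := Ctx.prim_smul hx (hv i hi) px fun l => A.R_le_O q (hvs i hi l).1
    refine ⟨γ ^ (g * μ) • y, V.smul_mem _ ?_, fun n => ?_⟩
    · rcases Finset.mem_union.1 ht with ht | ht
      · exact Submodule.mem_sup_left (Submodule.span_mono (Finset.subset_biUnion_of_mem CS ht) hy)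
      · exact Submodule.mem_sup_right (Submodule.span_mono (Finset.subset_biUnion_of_mem CS ht) hy)
    · have := hL.mul _ ((A.O q).pow_mem hγ (g * μ)) _ (h' n)
      rw [hrow i hi, hγ']
      refine (congrArg (· ∈ A.M q) ?_).mp this
      simp only [row, hL2, Pi.smul_apply, smul_eq_mul, mul_pow, Finset.prod_mul_distrib,
        Finset.prod_pow_eq_pow_sum, sum_expo, mul_sub]
  rw [← hK]
  have hpos : 0 < Fintype.card ι := hK ▸ Nat.pow_pos (Nat.succ_pos μ)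
  refine hcount.trans ?_
  rw [mul_assoc A.C, mul_assoc A.C, mul_assoc A.C]
  refine Nat.mul_le_mul_left _ ?_
  have h1 : (g * μ + 1) * (B + D * L) ≤ (g + 1) * μ * ((B + D) * (L + 1)) :=
    Nat.mul_le_mul (by nlinarith) (by nlinarith)
  have h2 : 1 ≤ Fintype.card ι * (μ * (L + 1)) :=
    Nat.mul_pos hpos (Nat.mul_pos hμ (Nat.succ_pos L))
  have h3 := Nat.mul_le_mul_left (Fintype.card ι) h1
  nlinarith

end Pool.Agent.P.MP_84b56d_ag.Z
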