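import Pool.Agent.P.MP_84b56d_ag.Z.Out
import Pool.Agent.P.MP_84b56d_ag.Bridge

/-! From the good primes to all height one primes, and the passage to dominant images. -/

open MvPolynomial TopologicalSpace Topology
open scoped LinearAlgebra.Projectivization

namespace Pool.Agent.P.MP_84b56d_ag.Z

variable {k : Type*} {σ τ : Type} [Field k]

theorem main {G : Type*} [AddCommGroup G] [TopologicalSpace G] (c : Ctx k σ G) [IsAlgClosed k]
    [CharZero k] [Finite σ] [IrreducibleSpace G]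
    (b : Set (MvPolynomial σ k)) (hbf : b.Finite) (hb : ∀ f ∈ b, ∃ d, f.IsHomogeneous d)
    (hcod : ∀ W, IsClosed W → IsIrreducible W → W ⊆ ZS c b →
      td (c.I W) + 2 ≤ td (c.I Set.univ)) (E₀ : Set k) (hE₀ : E₀.Finite) :
    ∃ R : Subring k, (∃ s : Finset k, R = Subring.closure (s : Set k)) ∧ E₀ ⊆ R ∧
      Dense {x | x ∉ ZS c b ∧ (∃ v ∈ c.rep x, ∀ i, v i ∈ R) ∧
        ∀ s : Ideal R, s.IsPrime → s.height = 1 → ∃ v ∈ c.rep x, (∀ i, v i ∈ R) ∧
          ∃ f ∈ b, ∀ a : R, (a : k) = eval v f → a ∉ s} := by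
  classical
  have := Fintype.ofFinite σ
  obtain ⟨E, A, S, hE, hS, hdense⟩ := out c b hbf hb hcod _
    (hE₀.union (hbf.biUnion fun f _ => finite_coeffs f))
  simp only [Set.union_subset_iff, Set.iUnion_subset_iff, Set.range_subset_iff] at hE
  have hex : ∀ q : A.Pr, ∃ a ∈ q.1, a ≠ 0 := fun q =>
    Submodule.exists_mem_ne_zero_of_ne_bot (Ideal.ne_bot_of_height_eq_one q.2.2.1)
  choose a ha ha0 using hex
  obtain ⟨R, hR, hle, hinv, hprime⟩ := loc_away A.R A.fg (A.h * ∏ q ∈ hS.toFinset, a q)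
    (mul_ne_zero A.h_ne (Finset.prod_ne_zero_iff.2 fun q _ => ha0 q))
  have hh : (A.h : k) ≠ 0 := fun h => A.h_ne (Subtype.ext h)
  have hER : E₀ ⊆ R := by
    intro e he
    have h0 : ((∏ q ∈ hS.toFinset, a q : A.R) : k) ≠ 0 := fun h =>
      Finset.prod_ne_zero_iff.2 (fun q _ => ha0 q) (Subtype.ext h)
    have := R.mul_mem (R.mul_mem hinv (hle (∏ q ∈ hS.toFinset, a q).2)) (hle (A.clear e (hE.1 he)))
    rwa [show ((A.h * ∏ q ∈ hS.toFinset, a q : A.R) : k)⁻¹ * (∏ q ∈ hS.toFinset, a q : A.R) *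
      (A.h * e) = e by rw [Subring.coe_mul]; field_simp] at this
  refine ⟨R, hR, hER, hdense.mono ?_⟩
  rintro x ⟨hxZ, ⟨v, hv, hvR⟩, hx⟩
  refine ⟨hxZ, ⟨v, hv, fun i => hle (hvR i)⟩, fun s hs h1 => ?_⟩
  obtain ⟨hq1, hq2, hq3⟩ := hprime s hs h1
  let q : A.Pr := ⟨s.comap (Subring.inclusion hle), hq1, hq2,
    fun h => hq3 (Ideal.mul_mem_right _ _ h)⟩
  have hqS : q ∉ S := fun h => hq3 (Ideal.mul_mem_left _ _
    (Ideal.mem_of_dvd _ (Finset.dvd_prod_of_mem a (hS.mem_toFinset.2 h)) (ha q)))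
  obtain ⟨⟨u, hu, pu⟩, hnc⟩ := hx q hqS
  choose β hβ hβ' using pu.1
  have hB : ∏ i, β i ∉ q.1 := fun h => by
    have := q.2.1
    obtain ⟨i, -, hi⟩ := Ideal.IsPrime.prod_mem_iff.1 h
    exact hβ i hi
  have hBu := A.un_of_notMem q hB
  have hmem : ∀ i, ((∏ i, β i : A.R) : k) * u i ∈ A.R := by
    intro i
    rw [← Finset.prod_erase_mul _ _ (Finset.mem_univ i), Subring.coe_mul, mul_assoc]
    exact A.R.mul_mem (Subtype.mem _) (hβ' i)
  have hrep : (fun i => ((∏ i, β i : A.R) : k) * u i) ∈ c.rep x := c.smul_mem x u hu _ hBu.2.1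
  have hprim : Prim (A.O q) fun i => ((∏ i, β i : A.R) : k) * u i := by
    obtain ⟨i, hi⟩ := pu.2
    exact ⟨fun i => A.R_le_O q (hmem i), i, hBu.mul hi⟩
  obtain ⟨f, hf, hne⟩ : ∃ f ∈ b, eval (fun i => ((∏ i, β i : A.R) : k) * u i) f ∉ A.M q := by
    by_contra h
    push Not at h
    exact hnc ⟨_, hrep, hprim, h⟩
  refine ⟨_, hrep, fun i => hle (hmem i), f, hf, fun a' ha' hmem' => hne ?_⟩
  have hR' : (A.h : k) * a' ∈ A.R := by
    have := eval_mem (O := A.R) (f := C (A.h : k) * f)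
      (fun m => by rw [coeff_C_mul]; exact A.clear _ (hE.2 f hf m)) hmem
    rwa [map_mul, eval_C, ← ha'] at this
  have h2 : (⟨_, hR'⟩ : A.R) ∈ q.1 := by
    have : Subring.inclusion hle ⟨_, hR'⟩ = ⟨A.h, hle A.h.2⟩ * a' := Subtype.ext rfl
    change Subring.inclusion hle ⟨_, hR'⟩ ∈ s
    rw [this]
    exact s.mul_mem_left _ hmem'
  have h3 := (A.loc q).mul _ (A.un_of_notMem q q.2.2.2).2.2 _ (A.mem_M_of_mem q h2)
  rwa [← mul_assoc, inv_mul_cancel₀ hh, one_mul, ha'] at h3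

theorem proj_gens [Infinite k] [Finite τ] (V : Set (ℙ k (τ → k))) :
    ∃ T : Finset (MvPolynomial τ k), (∀ f ∈ T, ∃ d, f.IsHomogeneous d) ∧
      Ideal.span (T : Set (MvPolynomial τ k)) =
        vanishingIdeal k {v | ∃ h : v ≠ 0, Projectivization.mk k v h ∈ V} := by
  classical
  obtain ⟨S, hS⟩ := (isNoetherianRing_iff_ideal_fg _).1 inferInstance
    (vanishingIdeal k {v | ∃ h : v ≠ 0, Projectivization.mk k v h ∈ V})
  refine ⟨S.biUnion fun f => (Finset.range (f.totalDegree + 1)).image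
    fun n => homogeneousComponent n f, ?_, le_antisymm ?_ ?_⟩
  · intro f hf
    simp only [Finset.mem_biUnion, Finset.mem_image] at hf
    obtain ⟨g, -, n, -, rfl⟩ := hf
    exact ⟨n, homogeneousComponent_isHomogeneous n g⟩
  · rw [Ideal.span_le]
    intro f hf
    simp only [Finset.coe_biUnion, Finset.coe_image, Set.mem_iUnion, Set.mem_image] at hf
    obtain ⟨g, hg, n, -, rfl⟩ := hf
    have hg' : g ∈ vanishingIdeal k {v | ∃ h : v ≠ 0, Projectivization.mk k v h ∈ V} :=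
      hS ▸ Ideal.subset_span hg
    rintro v ⟨hv, hV⟩
    refine eval_homComp_eq_zero g v (fun a ha => hg' _ ⟨smul_ne_zero ha hv, ?_⟩) n
    rwa [show Projectivization.mk k (a • v) (smul_ne_zero ha hv) = Projectivization.mk k v hv from
      (Projectivization.mk_eq_mk_iff' k _ _ _ _).2 ⟨a, rfl⟩]
  · rw [← hS, Ideal.span_le]
    intro f hf
    rw [← sum_homogeneousComponent f]
    refine Ideal.sum_mem _ fun n hn => Ideal.subset_span ?_
    simp only [Finset.coe_biUnion, Finset.coe_image, Set.mem_iUnion, Set.mem_image]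
    exact ⟨f, hf, n, hn, rfl⟩

theorem lift_gens (R : Subring k) (T : Finset (MvPolynomial τ k))
    (hT : ∀ f ∈ T, ∃ d, f.IsHomogeneous d) (hR : ∀ f ∈ T, ∀ m, coeff m f ∈ R) :
    ∃ a : Finset (MvPolynomial τ R), (∀ f ∈ a, ∃ d, f.IsHomogeneous d) ∧
      map R.subtype '' (a : Set (MvPolynomial τ R)) = T := by
  classical
  have hlift : ∀ f : T, ∃ g : MvPolynomial τ R, map R.subtype g = f := fun f => by
    refine mem_range_map_iff_coeffs_subset.2 fun a ha => ?_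
    obtain ⟨m, -, rfl⟩ := mem_coeffs_iff.1 ha
    exact ⟨⟨_, hR f f.2 m⟩, rfl⟩
  choose lf hlf using hlift
  refine ⟨Finset.univ.image lf, fun f hf => ?_, ?_⟩
  · obtain ⟨g, -, rfl⟩ := Finset.mem_image.1 hf
    obtain ⟨d, hd⟩ := hT g g.2
    exact ⟨d, IsHomogeneous.of_map R.subtype_injective (by rwa [hlf])⟩
  · ext f
    simp only [Finset.coe_image, Finset.coe_univ, Set.image_univ, Set.mem_image, Set.mem_range,
      exists_exists_eq_and, hlf, Finset.mem_coe]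
    exact ⟨fun ⟨g, hg⟩ => hg ▸ g.2, fun h => ⟨⟨f, h⟩, rfl⟩⟩

theorem eval_mk_zero {g : MvPolynomial τ k} {d : ℕ} (hg : g.IsHomogeneous d) {P : ℙ k (τ → k)}
    {v : τ → k} {h : v ≠ 0} (e : Projectivization.mk k v h = P) :
    eval v g = 0 ↔ eval P.rep g = 0 := by
  obtain ⟨a, ha, rfl⟩ := rep_smul e
  rw [eval_smul_of_hom hg, mul_eq_zero, or_iff_right (pow_ne_zero _ ha)]

theorem final [IsAlgClosed k] [CharZero k] [Finite σ] [Finite τ] {G : Type*} [AddCommGroup G]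
    [TopologicalSpace G] [IrreducibleSpace G] (c : Ctx k σ G) {Z₀ : Set G} (hZ₀ : IsClosed Z₀)
    (hcod : ∀ W : IrreducibleCloseds G, (W : Set G) ⊆ Z₀ → 2 ≤ Order.coheight W)
    {t : TopologicalSpace (ℙ k (τ → k))}
    (ht : t = generateFrom {U | ∃ (f : MvPolynomial τ k) (d : ℕ), f.IsHomogeneous d ∧
      U = {x | eval x.rep f ≠ 0}}) (X Z : Set (ℙ k (τ → k))) (hZ : IsClosed Z)
    (φ : G → ℙ k (τ → k))
    (hφ : ∀ x, x ∉ Z₀ → ∃ (D : MvPolynomial σ k) (F : τ → MvPolynomial σ k) (d e : ℕ),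
      D.IsHomogeneous d ∧ (∀ l, (F l).IsHomogeneous e) ∧ (∀ v ∈ c.rep x, eval v D ≠ 0) ∧
      ∀ y, y ∉ Z₀ → ∀ v ∈ c.rep y, eval v D ≠ 0 →
        ∃ h : (fun l => eval v (F l)) ≠ 0, Projectivization.mk k _ h = φ y)
    (hmap : ∀ x, x ∉ Z₀ → φ x ∈ X \ Z) (hdom : X \ Z ⊆ closure (φ '' Z₀ᶜ)) :
    ∃ R : Subring k, (∃ s : Finset k, R = Subring.closure (s : Set k)) ∧
      ∃ a b : Finset (MvPolynomial τ R), (∀ f ∈ a, ∃ d, f.IsHomogeneous d) ∧
        (∀ g ∈ b, ∃ d, g.IsHomogeneous d) ∧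
        Ideal.span (map R.subtype '' (a : Set (MvPolynomial τ R))) =
          vanishingIdeal k {v | ∃ h : v ≠ 0, Projectivization.mk k v h ∈ X} ∧
        (∀ x ∈ X, x ∈ Z ↔ ∀ g ∈ b, eval x.rep (map R.subtype g) = 0) ∧
        X \ Z ⊆ closure {P | P ∈ X \ Z ∧
          (∃ (v : τ → R) (h : (fun i => (v i : k)) ≠ 0), Projectivization.mk k _ h = P) ∧
          ∀ s : Ideal R, s.IsPrime → s.height = 1 →
            ∃ (v : τ → R) (h : (fun i => (v i : k)) ≠ 0), Projectivization.mk k _ h = P ∧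
              (∃ i, v i ∉ s) ∧ ∃ g ∈ b, eval v g ∉ s} := by
  classical
  obtain ⟨Ta, hTa, hTa'⟩ := proj_gens X
  obtain ⟨Tb, hTb, hTb'⟩ := proj_gens Z
  obtain ⟨T₀, hT₀, hT₀'⟩ := c.exists_gens Z₀
  have hZb : ∀ x, x ∈ Z ↔ ∀ g ∈ Tb, eval x.rep g = 0 := fun x => by
    refine ⟨fun hx g hg => ?_, fun h => by_contra fun hx => ?_⟩
    · have : g ∈ Ideal.span (Tb : Set (MvPolynomial τ k)) := Ideal.subset_span hg
      rw [hTb'] at this
      exact this _ ⟨x.rep_nonzero, by rwa [x.mk_rep]⟩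
    obtain ⟨f, d, hf, h1, h2⟩ := exists_hom_of_open ht hZ.isOpen_compl hx
    refine h1 (eval_eq_zero_of_span h f (hTb' ▸ ?_))
    rintro v ⟨hv, hvZ⟩
    exact (eval_mk_zero hf rfl).2 (h2 _ (not_not.2 hvZ))
  have hφ' : ∀ x : (Z₀ᶜ : Set G), ∃ (D : MvPolynomial σ k) (F : τ → MvPolynomial σ k) (l : τ),
      ∃ g ∈ Tb, (∃ d, (D * F l * aeval F g).IsHomogeneous d) ∧
      (∀ v ∈ c.rep x, eval v (D * F l * aeval F g) ≠ 0) ∧ ∀ y, ∀ v ∈ c.rep y, eval v D ≠ 0 →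
        y ∉ Z₀ ∧ ∃ h : (fun l => eval v (F l)) ≠ 0, Projectivization.mk k _ h = φ y := by
    rintro ⟨x, hx⟩
    obtain ⟨D, F, d, e, h1, h2, h3, h4⟩ := hφ x hx
    obtain ⟨v, hv⟩ := c.nonempty x
    obtain ⟨H, hH, h5⟩ : ∃ H ∈ T₀, eval v H ≠ 0 := by
      by_contra h
      push Not at h
      exact hx (c.mem_of_gens hZ₀ hT₀ hT₀' hv h)
    obtain ⟨h6, h7⟩ := h4 x hx v hv (h3 v hv)
    obtain ⟨l, hl⟩ := Function.ne_iff.1 h6
    obtain ⟨g, hg, h8⟩ : ∃ g ∈ Tb, eval (φ x).rep g ≠ 0 := by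
      by_contra h
      push Not at h
      exact (hmap x hx).2 ((hZb _).2 h)
    obtain ⟨d', hd'⟩ := hT₀ H hH
    obtain ⟨e', he'⟩ := hTb g hg
    have h9 := ((h1.mul hd').mul (h2 l)).mul (he'.aeval F h2)
    refine ⟨D * H, F, l, g, hg, ⟨_, h9⟩, fun w hw => ?_, fun y w hw h => ?_⟩
    · obtain ⟨a, ha, rfl⟩ := c.exists_smul_ne hv hw
      rw [eval_smul_of_hom h9, map_mul, map_mul, map_mul, eval_aeval']
      exact mul_ne_zero (pow_ne_zero _ ha) (mul_ne_zero (mul_ne_zero (mul_ne_zero (h3 v hv) h5) hl)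
        fun h => h8 ((eval_mk_zero he' h7).1 h))
    · rw [map_mul] at h
      have hy : y ∉ Z₀ := fun hy => right_ne_zero_of_mul h
        ((hT₀' ▸ Ideal.subset_span hH : H ∈ c.I Z₀) y hy w hw)
      exact ⟨hy, h4 y hy w hw (left_ne_zero_of_mul h)⟩
  choose D F l g hg hP1 hP2 hP3 using hφ'
  obtain ⟨S, hS, hspan⟩ := (Submodule.fg_span_iff_fg_span_finset_subset
    (Set.range fun x => D x * F x (l x) * aeval (F x) (g x))).1
    ((isNoetherianRing_iff_ideal_fg _).1 inferInstance (Ideal.span _))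
  choose p hp using fun f : S => hS f.2
  have hZS : ZS c S ⊆ Z₀ := fun y hy => by_contra fun hy' => by
    obtain ⟨v, hv⟩ := c.nonempty y
    refine hP2 ⟨y, hy'⟩ v hv (eval_eq_zero_of_span (fun f hf => hy f hf v hv) _ ?_)
    change _ ∈ Submodule.span _ _
    rw [← hspan]
    exact Submodule.subset_span ⟨_, rfl⟩
  have hirr := IrreducibleSpace.isIrreducible_univ G
  obtain ⟨R, hR, hE, hdense⟩ := main c S S.finite_toSet
    (fun f hf => by obtain ⟨x, rfl⟩ := hS hf; exact hP1 x) (fun W h1 h2 h3 => by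
      obtain ⟨W₁, W₂, h4, h5⟩ := (Order.one_lt_height_iff (α := (IrreducibleCloseds G)ᵒᵈ)).1
        (lt_of_lt_of_le (by norm_num) (hcod ⟨W, h2, h1⟩ (h3.trans hZS)))
      have h6 := c.td_lt_td h1 h2 W₁.isIrreducible h5
      have h7 := c.td_lt_td W₁.isClosed W₁.isIrreducible W₂.isIrreducible h4
      have h8 := c.td_le_td W₂.isIrreducible hirr (Set.subset_univ _)
      omega)
    ((⋃ f ∈ Ta ∪ Tb, Set.range fun m => coeff m f) ∪ ⋃ f : S, (Set.range fun m =>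
      coeff m (D (p f))) ∪ ⋃ j, Set.range fun m => coeff m (F (p f) j))
    (((Ta ∪ Tb).finite_toSet.biUnion fun f _ => finite_coeffs f).union (Set.finite_iUnion fun _ =>
      (finite_coeffs _).union (Set.finite_iUnion fun _ => finite_coeffs _)))
  simp only [Set.union_subset_iff, Set.iUnion_subset_iff, Set.range_subset_iff,
    Finset.mem_union] at hE
  obtain ⟨a, ha, ha'⟩ := lift_gens R Ta hTa fun f hf => hE.1 f (Or.inl hf)
  obtain ⟨b, hb, hb'⟩ := lift_gens R Tb hTb fun f hf => hE.1 f (Or.inr hf)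
  refine ⟨R, hR, a, b, ha, hb, ha' ▸ hTa', fun x _ => ?_, hdom.trans (closure_minimal ?_
    isClosed_closure)⟩
  · rw [hZb]
    refine ⟨fun h g hg => h _ (Finset.mem_coe.1 (hb' ▸ Set.mem_image_of_mem _ hg)), fun h g hg => ?_⟩
    obtain ⟨g', hg', rfl⟩ : g ∈ map R.subtype '' (b : Set _) := hb' ▸ hg
    exact h g' hg'
  rintro _ ⟨x, hx, rfl⟩
  by_contra hcon
  obtain ⟨h, d, h1, h2, h3⟩ := exists_hom_of_open ht isClosed_closure.isOpen_compl hcon
  have h4 := closure_minimal (t := {y | ∀ f ∈ ({D ⟨x, hx⟩ * aeval (F ⟨x, hx⟩) h} : Set _),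
    ∀ v ∈ c.rep y, eval v f = 0}) (s := _) ?_ (c.isClosed_zero _) (hdense x)
  · obtain ⟨v, hv⟩ := c.nonempty x
    have h5 := hP2 ⟨x, hx⟩ v hv
    rw [map_mul, map_mul] at h5
    have h6 := left_ne_zero_of_mul (left_ne_zero_of_mul h5)
    have h7 := h4 _ rfl v hv
    rw [map_mul, eval_aeval'] at h7
    obtain ⟨-, h8, h9⟩ := hP3 _ x v hv h6
    exact h2 ((eval_mk_zero h1 h9).1 ((mul_eq_zero.1 h7).resolve_left h6))
  rintro y ⟨hy, ⟨v, hv, hvR⟩, hs⟩ _ rfl w hw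
  rw [map_mul, eval_aeval']
  by_cases h5 : eval w (D ⟨x, hx⟩) = 0
  · rw [h5, zero_mul]
  obtain ⟨h6, h7, h8⟩ := hP3 _ y w hw h5
  rw [(eval_mk_zero h1 h8).2 (h3 _ (not_not.2 (subset_closure ⟨hmap y h6, ?_, fun s h9 h10 => ?_⟩))),
    mul_zero]
  · obtain ⟨f, hf, hne⟩ : ∃ f ∈ S, eval v f ≠ 0 := by
      by_contra h
      push Not at h
      refine hy fun f hf u hu => ?_
      obtain ⟨β, rfl⟩ := c.exists_smul y v hv u hu
      obtain ⟨z, rfl⟩ := hS hf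
      obtain ⟨e, he⟩ := hP1 z
      rw [eval_smul_of_hom he, h _ hf, mul_zero]
    rw [← show _ = f from hp ⟨f, hf⟩, map_mul, map_mul] at hne
    exact ⟨fun j => ⟨_, eval_mem ((hE.2 ⟨f, hf⟩).2 j) hvR⟩,
      (hP3 _ y v hv (left_ne_zero_of_mul (left_ne_zero_of_mul hne))).2⟩
  · obtain ⟨u, hu, huR, f, hf, hne⟩ := hs s h9 h10
    obtain ⟨g', hg', e⟩ : g (p ⟨f, hf⟩) ∈ map R.subtype '' (b : Set _) := hb' ▸ hg _
    let u' : τ → R := fun j => ⟨_, eval_mem ((hE.2 ⟨f, hf⟩).2 j) huR⟩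
    have h11 := hne (⟨_, eval_mem (hE.2 ⟨f, hf⟩).1 huR⟩ * u' (l _) * eval u' g') (by
      refine Eq.trans ?_ (congrArg (eval u) (hp ⟨f, hf⟩))
      simp only [map_mul, eval_aeval', ← e]
      exact congrArg _ (map_eval R.subtype u' g'))
    obtain ⟨-, h12, h13⟩ := hP3 _ y u hu fun h => h11 (s.mul_mem_right _ (s.mul_mem_right _
      ((Subtype.ext h : (⟨_, eval_mem (hE.2 ⟨f, hf⟩).1 huR⟩ : R) = 0) ▸ s.zero_mem)))
    exact ⟨u', h12, h13, ⟨l _, fun h => h11 (s.mul_mem_right _ (s.mul_mem_left _ h))⟩,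
      g', hg', fun h => h11 (s.mul_mem_left _ h)⟩

end Pool.Agent.P.MP_84b56d_ag.Z
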