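import Pool.Agent.P.MP_84b56d_ag.Loc
import Pool.Agent.P.MP_84b56d_ag.Law

/-! Noether normalisation with control of the reductions modulo primes. -/

open MvPolynomial

namespace Pool.Agent.P.MP_84b56d_ag.Z

variable {k : Type*} [Field k] {σ : Type}

theorem span_eval {τ : Type} (T : Set (MvPolynomial τ k)) {ρ : MvPolynomial τ k}
    (h : ρ ∈ Ideal.span T) : ∃ E : Set k, E.Finite ∧ ∀ (O : Subring k) (J : AddSubgroup k),
      Loc O J → E ⊆ O → ∀ v : τ → k, (∀ i, v i ∈ O) → (∀ f ∈ T, eval v f ∈ J) → eval v ρ ∈ J := by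
  induction h using Submodule.span_induction with
  | mem f hf => exact ⟨∅, Set.finite_empty, fun O J _ _ v _ h => h f hf⟩
  | zero => exact ⟨∅, Set.finite_empty, fun O J _ _ v _ _ => by simp⟩
  | add f g _ _ hf hg =>
    obtain ⟨E, hE, h⟩ := hf
    obtain ⟨E', hE', h'⟩ := hg
    refine ⟨E ∪ E', hE.union hE', fun O J hL hO v hv hT => ?_⟩
    rw [map_add]
    exact J.add_mem (h O J hL (Set.subset_union_left.trans hO) v hv hT)
      (h' O J hL (Set.subset_union_right.trans hO) v hv hT)
  | smul a f _ hf =>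
    obtain ⟨E, hE, h⟩ := hf
    refine ⟨E ∪ Set.range fun m => coeff m a, hE.union (finite_coeffs a),
      fun O J hL hO v hv hT => ?_⟩
    rw [smul_eq_mul, map_mul]
    exact hL.mul _ (eval_mem (fun m => hO (Or.inr ⟨m, rfl⟩)) hv) _
      (h O J hL (Set.subset_union_left.trans hO) v hv hT)

theorem noether_data [Finite σ] (J : Ideal (MvPolynomial σ k)) (d : ℕ)
    (hJ : ∀ P : Ideal (MvPolynomial σ k), P.IsPrime → J ≤ P → td P ≤ d) :
    ∃ (N : ℕ) (y : Fin d → MvPolynomial σ k) (s : Fin N → MvPolynomial σ k),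
      ∀ f, ∃ c : Fin N → MvPolynomial (Fin d) k, f - ∑ l, aeval y (c l) * s l ∈ J := by
  by_cases hT : J = ⊤
  · exact ⟨0, 0, 0, fun f => ⟨0, hT ▸ Submodule.mem_top⟩⟩
  have : Nontrivial (MvPolynomial σ k ⧸ J) := Ideal.Quotient.nontrivial_iff.2 hT
  obtain ⟨e, φ, hinj, hfin⟩ := exists_finite_inj_algHom_of_fg k (MvPolynomial σ k ⧸ J)
  choose z hz using fun j : Fin e => Ideal.Quotient.mk_surjective (φ (X j))
  have hφ : ∀ p, φ p = Ideal.Quotient.mk J (aeval z p) := fun p => by
    have : φ = (Ideal.Quotient.mkₐ k J).comp (aeval z) := algHom_ext fun j => by simp [hz]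
    rw [this]; rfl
  let : Algebra (MvPolynomial (Fin e) k) (MvPolynomial σ k ⧸ J) := φ.toRingHom.toAlgebra
  have : Module.Finite (MvPolynomial (Fin e) k) (MvPolynomial σ k ⧸ J) := hfin
  have hed : e ≤ d := by
    obtain ⟨Q, -, hQ, hQ'⟩ := Ideal.exists_ideal_over_prime_of_isIntegral
      (S := MvPolynomial σ k ⧸ J) (⊥ : Ideal (MvPolynomial (Fin e) k)) ⊥ (by
        intro p hp
        exact hinj (by rw [map_zero]; exact hp))
    let P := Q.comap (Ideal.Quotient.mk J)
    have hP : P.IsPrime := Ideal.comap_isPrime _ _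
    refine (le_td P (fun j => Ideal.Quotient.mk P (z j)) ?_).trans (hJ P hP fun f hf => ?_)
    · rw [algebraicIndependent_iff]
      intro p hp
      have h1 : Ideal.Quotient.mk P (aeval z p) = 0 := by
        rw [← hp]
        exact comp_aeval_apply z (Ideal.Quotient.mkₐ k P) p
      have h2 : p ∈ Q.comap (algebraMap (MvPolynomial (Fin e) k) (MvPolynomial σ k ⧸ J)) := by
        change φ p ∈ Q
        rw [hφ]
        exact (Ideal.Quotient.eq_zero_iff_mem (I := P)).1 h1
      rwa [hQ'] at h2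
    · change Ideal.Quotient.mk J f ∈ Q
      rw [Ideal.Quotient.eq_zero_iff_mem.2 hf]
      exact Q.zero_mem
  obtain ⟨N, s, hs⟩ := Module.Finite.exists_fin (R := MvPolynomial (Fin e) k)
    (M := MvPolynomial σ k ⧸ J)
  choose s' hs' using fun l => Ideal.Quotient.mk_surjective (s l)
  refine ⟨N, fun j => if h : (j : ℕ) < e then z ⟨j, h⟩ else 0, s', fun f => ?_⟩
  obtain ⟨c, hc⟩ := (Submodule.mem_span_range_iff_exists_fun _).1
    (hs ▸ Submodule.mem_top : Ideal.Quotient.mk J f ∈ Submodule.span _ (Set.range s))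
  refine ⟨fun l => rename (Fin.castLE hed) (c l), ?_⟩
  rw [← Ideal.Quotient.eq, ← hc, map_sum]
  refine Finset.sum_congr rfl fun l _ => ?_
  rw [map_mul, hs', aeval_rename, Algebra.smul_def]
  congr 1
  change φ _ = _
  rw [hφ]
  congr 3
  funext j
  simp

theorem exists_mat {d N : ℕ} (T : Set (MvPolynomial σ k)) (y : Fin d → MvPolynomial σ k)
    (s : Fin N → MvPolynomial σ k)
    (h : ∀ f, ∃ c : Fin N → MvPolynomial (Fin d) k, f - ∑ l, aeval y (c l) * s l ∈ Ideal.span T)
    (F : MvPolynomial (σ ⊕ σ) k) : ∀ f : MvPolynomial σ k,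
    ∃ (c : Fin N → MvPolynomial (Fin d) (MvPolynomial σ k)) (E : Set k), E.Finite ∧
      ∀ (O : Subring k) (J : AddSubgroup k), Loc O J → E ⊆ O → ∀ v w : σ → k, (∀ i, v i ∈ O) →
        (∀ i, w i ∈ O) → (∀ f ∈ T, eval v f ∈ J) → eval (Sum.elim v w) F * eval v f -
          ∑ j, eval (fun a => eval v (y a)) (map (eval w) (c j)) * eval v (s j) ∈ J := by
  induction F using MvPolynomial.induction_on with
  | C a =>
    intro f
    obtain ⟨c, hc⟩ := h (C a * f)
    obtain ⟨E, hE, h'⟩ := span_eval T hc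
    refine ⟨fun j => map C (c j), E, hE, fun O J hL hO v w hv _ hT => ?_⟩
    have := h' O J hL hO v hv hT
    simp only [map_sub, map_mul, map_sum, eval_C, eval_aeval'] at this
    have e : ∀ j, map (eval w) (map (C : k →+* MvPolynomial σ k) (c j)) = c j := fun j => by
      rw [map_map, show (eval w).comp (C : k →+* MvPolynomial σ k) = RingHom.id k from
        RingHom.ext fun a => eval_C a, map_id]
    simpa only [eval_C, e] using this
  | add F F' hF hF' =>
    intro f
    obtain ⟨c, E, hE, h1⟩ := hF f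
    obtain ⟨c', E', hE', h2⟩ := hF' f
    refine ⟨c + c', E ∪ E', hE.union hE', fun O J hL hO v w hv hw hT => ?_⟩
    have := J.add_mem (h1 O J hL (Set.subset_union_left.trans hO) v w hv hw hT)
      (h2 O J hL (Set.subset_union_right.trans hO) v w hv hw hT)
    convert this using 1
    simp only [map_add, Pi.add_apply, add_mul, Finset.sum_add_distrib]
    ring
  | mul_X F i hF =>
    intro f
    rcases i with i | i
    · obtain ⟨c, E, hE, h1⟩ := hF (X i * f)
      refine ⟨c, E, hE, fun O J hL hO v w hv hw hT => ?_⟩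
      have := h1 O J hL hO v w hv hw hT
      simpa only [map_mul, eval_X, Sum.elim_inl, mul_assoc] using this
    · obtain ⟨c, E, hE, h1⟩ := hF f
      refine ⟨fun j => C (X i) * c j, E, hE, fun O J hL hO v w hv hw hT => ?_⟩
      have := hL.mul _ (hw i) _ (h1 O J hL hO v w hv hw hT)
      convert this using 1
      simp only [map_mul, eval_X, Sum.elim_inr, map_C, eval_C, mul_sub, Finset.mul_sum, mul_assoc]
      ring

end Pool.Agent.P.MP_84b56d_ag.Z
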