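import Pool.Agent.P.MP_84b56d_ag.Z.Vec
import Pool.Agent.P.MP_84b56d_ag.Formal

/-! The multiplication operators attached to the translates of a closed subset. -/

open MvPolynomial TopologicalSpace

namespace Pool.Agent.P.MP_84b56d_ag.Z

variable {k : Type*} {σ : Type} {G : Type*} [Field k] [AddCommGroup G] [TopologicalSpace G]
  (c : Ctx k σ G)

/-- the point reduces into the zero set of `b` -/
def BadG (b : Set (MvPolynomial σ k)) (O : Subring k) (J : AddSubgroup k) (x : G) : Prop :=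
  ∃ v ∈ c.rep x, Prim O v ∧ ∀ f ∈ b, eval v f ∈ J

/-- the zero set of `b` -/
def ZS (b : Set (MvPolynomial σ k)) : Set G := {x | ∀ f ∈ b, ∀ v ∈ c.rep x, eval v f = 0}

theorem td_chart [IsAlgClosed k] [Finite σ] (b : Set (MvPolynomial σ k))
    (hb : ∀ f ∈ b, ∃ d, f.IsHomogeneous d) (d : ℕ)
    (hd : ∀ W, IsClosed W → IsIrreducible W → W ⊆ ZS c b → td (c.I W) ≤ d + 1) (i : σ)
    (P : Ideal (MvPolynomial σ k)) (hP : P.IsPrime)
    (h : Ideal.span (insert (X i - 1) (b ∪ c.I Set.univ)) ≤ P) : td P ≤ d := by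
  classical
  have := c.noetherianSpace
  rw [Ideal.span_le] at h
  have h1 : X i - 1 ∈ P := h (Set.mem_insert _ _)
  have hI : c.I (ZS c b) ≤ P := fun f hf => mem_of_vanish P fun v hv => by
    have hi : v i = 1 := by simpa [sub_eq_zero] using hv _ h1
    obtain ⟨x, hx⟩ := c.cone_closed v (fun h0 => by simp [h0] at hi)
      fun g hg => hv g (h (Or.inr (Or.inr fun y _ => hg y)))
    refine hf x (fun g hg w hw => ?_) v hx
    obtain ⟨a, rfl⟩ := c.exists_smul x v hx w hw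
    obtain ⟨e, he⟩ := hb g hg
    rw [eval_smul_of_hom he, hv g (h (Or.inr (Or.inl hg))), mul_zero]
  obtain ⟨S, hS, hc, hi, hXS⟩ :=
    NoetherianSpace.exists_finite_set_isClosed_irreducible (c.isClosed_zero b)
  obtain ⟨W, hW, hWP⟩ := (Ideal.IsPrime.inf_le' (s := hS.toFinset) (f := c.I) hP).1
    (le_trans (b := c.I (ZS c b)) (fun f hf => c.mem_I.2 fun y hy w hw => by
      obtain ⟨W, hW, hy⟩ : y ∈ ⋃₀ S := hXS ▸ hy
      exact (Finset.inf_le (f := c.I) (hS.mem_toFinset.2 hW) hf) y hy w hw) hI)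
  rw [hS.mem_toFinset] at hW
  have := c.isPrime_I (hi W hW)
  have h2 := hd W (hc W hW) (hi W hW) (by
    change W ⊆ {x | ∀ f ∈ b, ∀ v ∈ c.rep x, eval v f = 0}
    rw [hXS]; exact Set.subset_sUnion_of_mem hW)
  have h3 : c.I W < P := by
    refine lt_of_le_of_ne hWP fun e => ?_
    rw [← e] at h1
    obtain ⟨x, hx⟩ := (hi W hW).nonempty
    obtain ⟨v, hv⟩ := c.nonempty x
    obtain ⟨a, ha⟩ := Infinite.exists_notMem_finset ({0, 1} : Finset k)
    simp only [Finset.mem_insert, Finset.mem_singleton, not_or] at ha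
    have h4 := h1 x hx v hv
    have h5 := h1 x hx _ (c.smul_mem x v hv a ha.1)
    simp only [map_sub, eval_X, map_one, sub_eq_zero, Pi.smul_apply, smul_eq_mul] at h4 h5
    rw [h4, mul_one] at h5
    exact ha.2 h5
  have := td_lt h3
  omega

variable {c} in
theorem BadG.chart {b : Set (MvPolynomial σ k)} (hb : ∀ f ∈ b, ∃ d, f.IsHomogeneous d)
    {O : Subring k} {J : AddSubgroup k} (hL : Loc O J) {z : G} (h : BadG c b O J z) :
    ∃ i, ∃ v ∈ c.rep z, Prim O v ∧ ∀ f ∈ insert (X i - 1) (b ∪ c.I Set.univ), eval v f ∈ J := by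
  obtain ⟨v, hv, pv, h⟩ := h
  obtain ⟨i, hi⟩ := pv.2
  have hr := c.smul_mem z v hv _ hi.inv.2.1
  have h1 : ((v i)⁻¹ • v) i = 1 := inv_mul_cancel₀ hi.2.1
  refine ⟨i, _, hr, ⟨fun l => O.mul_mem hi.2.2 (pv.1 l), i, h1 ▸ un_one⟩, ?_⟩
  rintro f (rfl | hf | hf)
  · rw [map_sub, eval_X, h1, map_one, sub_self]
    exact J.zero_mem
  · obtain ⟨e, he⟩ := hb f hf
    rw [eval_smul_of_hom he]
    exact hL.mul _ (O.pow_mem hi.2.2 e) _ (h f hf)
  · rw [hf z trivial _ hr]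
    exact J.zero_mem

theorem exists_ops [IsAlgClosed k] [Finite σ] (b : Set (MvPolynomial σ k))
    (hb : ∀ f ∈ b, ∃ d, f.IsHomogeneous d) (d : ℕ)
    (hd : ∀ W, IsClosed W → IsIrreducible W → W ⊆ ZS c b → td (c.I W) ≤ d + 1) :
    ∃ (o : σ × Fin c.N → Op k σ d) (E : Set k), E.Finite ∧ (∀ θ, (o θ).Co E) ∧
      ∀ O J, Loc O J → E ⊆ O → c.Good O → ∀ y z, BadG c b O J z → ∀ w ∈ c.rep y, Prim O w →
        ∃ θ, ∃ x ∈ c.rep (z + y), Prim O x ∧ (o θ).Rel O J w x := by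
  choose N y s hs using fun i => noether_data _ d (td_chart c b hb d hd i)
  choose c0 hc0 using fun i => hs i 1
  choose E0 hE0 h0 using fun i => span_eval _ (hc0 i)
  choose M E1 hE1 h1 using fun (θ : σ × Fin c.N) l a =>
    exists_mat _ (y θ.1) (s θ.1) (hs θ.1) (c.law θ.2 l) (s θ.1 a)
  let o : σ × Fin c.N → Op k σ d := fun θ => ⟨N θ.1, c0 θ.1, M θ⟩
  choose E2 hE2 h2 using fun θ => (o θ).exists_co
  refine ⟨o, (⋃ θ, E2 θ) ∪ ((⋃ i, E0 i) ∪ ((⋃ θ, ⋃ l, ⋃ a, E1 θ l a) ∪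
    ((⋃ i, ⋃ a, Set.range fun m => coeff m (y i a)) ∪ ⋃ i, ⋃ a, Set.range fun m =>
      coeff m (s i a)))), (Set.finite_iUnion hE2).union ((Set.finite_iUnion hE0).union
    ((Set.finite_iUnion fun θ => Set.finite_iUnion fun l => Set.finite_iUnion (hE1 θ l)).union
      ((Set.finite_iUnion fun _ => Set.finite_iUnion fun _ => finite_coeffs _).union
        (Set.finite_iUnion fun _ => Set.finite_iUnion fun _ => finite_coeffs _)))),
    fun θ => (h2 θ).mono ((Set.subset_iUnion E2 θ).trans Set.subset_union_left),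
    fun O J hL hE hG y' z hz w hw pw => ?_⟩
  simp only [Set.union_subset_iff, Set.iUnion_subset_iff, Set.range_subset_iff] at hE
  obtain ⟨-, e0, e1, e2, e3⟩ := hE
  obtain ⟨i, v, hv, pv, hT⟩ := hz.chart hb hL
  obtain ⟨α, l, hl⟩ := hG.2 z y' v hv w hw pv pw
  refine ⟨(i, α), _, c.law_mem α z y' v hv w hw l hl.2.1, ⟨fun l' => eval_mem (hG.1 α l') ?_, l, hl⟩,
    fun a => eval v (y i a), fun a => eval v (s i a), fun a => eval_mem (e2 i a) pv.1,
    fun a => eval_mem (e3 i a) pv.1, ?_, fun l' a => h1 (i, α) l' a O J hL (e1 _ _ _) v w pv.1 pw.1 hT⟩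
  · rintro (j | j)
    · exact pv.1 j
    · exact pw.1 j
  · have := h0 i O J hL (e0 i) v pv.1 hT
    simpa only [map_sub, map_one, map_sum, map_mul, eval_aeval'] using this

theorem not_bad_of_empty [IsAlgClosed k] [Finite σ] (b : Set (MvPolynomial σ k))
    (hb : ∀ f ∈ b, ∃ d, f.IsHomogeneous d) (hZ : ZS c b = ∅) :
    ∃ E : Set k, E.Finite ∧ ∀ O J, Loc O J → E ⊆ O → ∀ z, ¬ BadG c b O J z := by
  have h : ∀ i : σ, (1 : MvPolynomial σ k) ∈ Ideal.span (insert (X i - 1) (b ∪ c.I Set.univ)) := by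
    intro i
    rw [← Ideal.eq_top_iff_one]
    by_contra hne
    obtain ⟨P, hP, h⟩ := Ideal.exists_le_maximal _ hne
    have := hP.isPrime
    rw [Ideal.span_le] at h
    refine hP.ne_top ((Ideal.eq_top_iff_one _).2 (mem_of_vanish P fun v hv => ?_))
    have hi : v i = 1 := by simpa [sub_eq_zero] using hv _ (h (Set.mem_insert _ _))
    obtain ⟨x, hx⟩ := c.cone_closed v (fun h0 => by simp [h0] at hi)
      fun g hg => hv g (h (Or.inr (Or.inr fun y _ => hg y)))
    refine absurd (hZ ▸ (fun g hg w hw => ?_ : x ∈ ZS c b)) (Set.notMem_empty x)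
    obtain ⟨a, rfl⟩ := c.exists_smul x v hx w hw
    obtain ⟨e, he⟩ := hb g hg
    rw [eval_smul_of_hom he, hv g (h (Or.inr (Or.inl hg))), mul_zero]
  choose E hE h' using fun i => span_eval _ (h i)
  refine ⟨⋃ i, E i, Set.finite_iUnion hE, fun O J hL hO z hz => ?_⟩
  obtain ⟨i, v, -, pv, hT⟩ := hz.chart hb hL
  have := h' i O J hL ((Set.subset_iUnion E i).trans hO) v pv.1 hT
  rw [map_one] at this
  exact hL.nonunit _ this un_one

end Pool.Agent.P.MP_84b56d_ag.Z
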