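import Pool.Agent.P.MP_84b56d_ag.Z.DetZ
import Pool.Agent.P.MP_84b56d_ag.Z.Comb3
import Pool.Agent.P.MP_84b56d_ag.Z.Blocks
import Pool.Agent.P.MP_84b56d_ag.Cases

/-! Density of the points that avoid a closed subset of codimension two modulo almost all primes. -/

open MvPolynomial TopologicalSpace

namespace Pool.Agent.P.MP_84b56d_ag.Z

variable {k : Type*} {σ : Type} {G : Type*} [Field k] [AddCommGroup G] [TopologicalSpace G]
  (c : Ctx k σ G)

open Classical in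
theorem dense_of [NoetherianSpace G] [SeparatelyContinuousAdd G] [IrreducibleSpace G] {r n : ℕ}
    (hr : 1 ≤ r) (φ : (Fin n → ℤ) →+ G) (hφ : ∀ W : Set G, IsClosed W → W.Nonempty →
      W ≠ Set.univ → ∃ ψ : (Fin r → ℤ) →+ (Fin n → ℤ), (∀ ρ, ∀ a ∈ box r ρ, ψ a ∈ box n ρ) ∧
        ∀ a, a ≠ 0 → ¬ ∀ w ∈ W, w + φ (ψ a) ∈ W) {Z : Set G} (hZ : IsClosed Z) (hZ' : Z ≠ Set.univ)
    {D : Set G} (h : ∀ Y : Set (Fin n → ℤ), φ ⁻¹' Z ⊆ Y → (∀ L : ℕ, ∃ N₀ : ℕ, ∀ N, N₀ ≤ N →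
      L * ((box n N).filter (· ∈ Y)).card ≤ (box n N).card) → ∃ a, a ∉ Y ∧ (φ a ∉ Z → φ a ∈ D)) :
    Dense D := by
  rw [dense_iff_closure_eq]
  by_contra hne
  obtain ⟨a, h1, h2⟩ := h (φ ⁻¹' (closure D ∪ Z)) (fun a ha => Or.inr ha) (sparse φ
    (fun W h1 h2 h3 => by
      obtain ⟨ψ, h4, h5⟩ := hφ W h1 h2 h3
      refine ⟨ψ 1, h4 1 1 (CountP.mem_box.2 fun i => by simp), fun j hj => ?_⟩
      rw [← map_nsmul]
      refine h5 _ fun h => ?_
      have := congrFun h ⟨0, hr⟩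
      simp at this
      omega) ⟨closure D ∪ Z, isClosed_closure.union hZ⟩ fun h => by
    rcases isPreirreducible_iff_isClosed_union_isClosed.1
      (IrreducibleSpace.isIrreducible_univ G).2 _ _ isClosed_closure hZ h.ge with h' | h'
    · exact hne (Set.eq_univ_of_univ_subset h')
    · exact hZ' (Set.eq_univ_of_univ_subset h'))
  exact h1 (Or.inl (subset_closure (h2 fun h => h1 (Or.inr h))))

theorem count_bad {b : Set (MvPolynomial σ k)} (hbf : b.Finite)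
    (hb : ∀ f ∈ b, ∃ d, f.IsHomogeneous d) {E : Set k} (A : Arith k E)
    (hE : ∀ f ∈ b, ∀ m, coeff m f ∈ E) : ∃ C : ℕ, ∀ (L : ℕ) (x : G), x ∉ ZS c b →
      (∃ v ∈ c.rep x, ∀ l, A.Sm L (v l)) → ∀ Q : Finset A.Pr,
        (∀ q ∈ Q, BadG c b (A.O q) (A.M q) x) → Q.card ≤ C * (L + 1) := by
  choose! B hB using fun f (hf : f ∈ b) => Arith.sm_eval (A := A) (C (A.h : k) * f)
    fun m => by rw [coeff_C_mul]; exact A.clear _ (hE f hf m)
  obtain ⟨B₀, hB₀⟩ := (hbf.image fun f => B f + (C (A.h : k) * f).totalDegree).bddAbove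
  refine ⟨A.C * (B₀ + 1), fun L x hx ⟨v, hv, hs⟩ Q hQ => ?_⟩
  obtain ⟨f, hf, hne⟩ : ∃ f ∈ b, eval v f ≠ 0 := by
    by_contra h
    push Not at h
    refine hx fun f hf w hw => ?_
    obtain ⟨a, rfl⟩ := c.exists_smul x v hv w hw
    obtain ⟨e, he⟩ := hb f hf
    rw [eval_smul_of_hom he, h f hf, mul_zero]
  obtain ⟨e, he⟩ := hb f hf
  have h1 := hB f hf L v hs
  rw [map_mul, eval_C] at h1
  have h2 := A.count' (mul_ne_zero (fun h => A.h_ne (Subtype.ext h)) hne) 1 _ h1 Q fun q hq => by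
    obtain ⟨u, hu, pu, h⟩ := hQ q hq
    obtain ⟨a, ha, rfl, -⟩ := Ctx.prim_smul hu hv pu fun l => A.R_le_O q (hs l).1
    rw [pow_one, eval_smul_of_hom he]
    exact mul_mem_prin (A.R_le_O q A.h.2) (mul_mem_prin ((A.O q).pow_mem ha e) (h f hf))
  have h3 : B f + (C (A.h : k) * f).totalDegree ≤ B₀ := hB₀ ⟨f, hf, rfl⟩
  rw [one_mul] at h2
  rw [mul_assoc]
  refine h2.trans (Nat.mul_le_mul_left _ ?_)
  nlinarith [Nat.zero_le (B f * L)]

theorem out [IsAlgClosed k] [CharZero k] [Finite σ] [IrreducibleSpace G]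
    (b : Set (MvPolynomial σ k)) (hbf : b.Finite) (hb : ∀ f ∈ b, ∃ d, f.IsHomogeneous d)
    (hcod : ∀ W, IsClosed W → IsIrreducible W → W ⊆ ZS c b →
      td (c.I W) + 2 ≤ td (c.I Set.univ)) (E₀ : Set k) (hE₀ : E₀.Finite) :
    ∃ (E : Set k) (A : Arith k E) (S : Set A.Pr), E₀ ⊆ E ∧ S.Finite ∧
      Dense {x | x ∉ ZS c b ∧ (∃ v ∈ c.rep x, ∀ l, v l ∈ A.R) ∧ ∀ q, q ∉ S →
        (∃ v ∈ c.rep x, Prim (A.O q) v) ∧ ¬ BadG c b (A.O q) (A.M q) x} := by
  classical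
  have := c.noetherianSpace
  have := c.sepCont
  have := c.t1Space
  have hirr := IrreducibleSpace.isIrreducible_univ G
  have hZ : IsClosed (ZS c b) := c.isClosed_zero b
  have hZ' : ZS c b ≠ Set.univ := fun h => by
    have := hcod _ isClosed_univ hirr h.ge
    omega
  have hbl := blocks (fun W => td (c.I W)) (td (c.I Set.univ))
    (fun W _ hW => c.td_le_td hW hirr (Set.subset_univ W))
    (fun W W' h1 h2 _ h4 h => c.td_lt_td h1 h2 h4 h) c.ndProp
  let Φ : ∀ {n : ℕ}, (Fin n → G) → ((Fin n → ℤ) →+ G) := fun x =>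
    AddMonoidHom.mk' (fun a => ∑ i, a i • x i) fun a b => by
      simp only [Pi.add_apply, add_zsmul, Finset.sum_add_distrib]
  have hΦ : ∀ {n : ℕ} (x : Fin n → G) a, Φ x a ∈ AddSubgroup.closure (Set.range x) :=
    fun x a => show ∑ i, a i • x i ∈ _ from AddSubgroup.sum_mem _ fun i _ =>
      AddSubgroup.zsmul_mem _ (AddSubgroup.subset_closure (Set.mem_range_self i)) _
  rcases (ZS c b).eq_empty_or_nonempty with h0 | ⟨z, hz⟩
  · obtain ⟨E₁, hE₁, h1⟩ := not_bad_of_empty c b hb h0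
    obtain ⟨n, x, hx⟩ := hbl 1
    obtain ⟨E, A, -, hE, -, hprim, hint, -⟩ := c.setup _ (Set.finite_range x) _ (hE₀.union hE₁)
    rw [Set.union_subset_iff] at hE
    refine ⟨E, A, ∅, hE.1, Set.finite_empty, dense_of le_rfl (Φ x) hx hZ hZ' fun Y _ hY => ?_⟩
    obtain ⟨N, hN⟩ := hY 2
    have h2 := hN N le_rfl
    have h3 := box_pos n N
    obtain ⟨a, h4, h5⟩ := Finset.exists_mem_notMem_of_card_lt_card
      (show ((box n N).filter (· ∈ Y)).card < (box n N).card by omega)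
    exact ⟨a, fun h => h5 (Finset.mem_filter.2 ⟨h4, h⟩), fun h => ⟨h, hint _ (hΦ x a), fun q _ =>
      ⟨hprim q _ (hΦ x a), h1 _ _ (A.loc q) (hE.2.trans (A.subset_O q)) _⟩⟩⟩
  obtain ⟨d, hd⟩ : ∃ d, td (c.I Set.univ) = d + 2 + 1 := by
    have h1 := hcod {z} isClosed_singleton isIrreducible_singleton (Set.singleton_subset_iff.2 hz)
    have h2 := c.one_le_td (isIrreducible_singleton (x := z))
    exact ⟨td (c.I Set.univ) - 3, by omega⟩
  obtain ⟨κ, hκ⟩ := c.height_bound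
  obtain ⟨C₀, C₁, E₁, hE₁, hdet⟩ := det_main c (d + 2) hd (by omega) b hb d fun W h1 h2 h3 => by
    have := hcod W h1 h2 h3
    omega
  obtain ⟨n, x, hx⟩ := hbl (2 * (κ + 1) * (d + 2))
  obtain ⟨E, A, -, hE, hlaw, hprim, hint, -⟩ := c.setup _ (Set.finite_range x) _
    (hE₀.union (hE₁.union (hbf.biUnion fun f _ => finite_coeffs f)))
  simp only [Set.union_subset_iff, Set.iUnion_subset_iff, Set.range_subset_iff] at hE
  obtain ⟨C, hC⟩ := hdet E A hE.2.1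
  obtain ⟨C', hC'⟩ := count_bad c hbf hb A hE.2.2
  have hm : ∀ i, x i ∈ AddSubgroup.closure (Set.range x) :=
    fun i => AddSubgroup.subset_closure ⟨i, rfl⟩
  obtain ⟨C₃, hC₃⟩ := hκ E A hlaw (Fin n) x (hint 0 (zero_mem _)) (fun i => hint _ (hm i))
    fun i => hint _ (neg_mem (hm i))
  have hsm : ∀ N, 1 ≤ N → ∀ a ∈ box n N, ∃ v ∈ c.rep (Φ x a),
      ∀ l, A.Sm (C₃ * N ^ (κ + 1)) (v l) := fun N hN a ha => by
    obtain ⟨v, h1, h2⟩ := hC₃ N hN a (CountP.mem_box.1 ha)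
    exact ⟨v, h1, fun l => (h2 l).mono
      (Nat.mul_le_mul_left _ (Nat.pow_le_pow_right hN (Nat.le_succ _)))⟩
  have hL : ∀ N, 1 ≤ N → C₃ * N ^ (κ + 1) + 1 ≤ (C₃ + 1) * N ^ (κ + 1) := fun N hN => by
    have : 1 ≤ N ^ (κ + 1) := Nat.pow_pos hN
    nlinarith
  obtain ⟨S, hS, h⟩ := comb_main (n := n) (g := d + 2) (κ := κ + 1) (C₀ := C₀) (C₁ := C₁)
    (C := (C + C') * (C₃ + 1)) (Bad := fun q => {a | BadG c b (A.O q) (A.M q) (Φ x a)}) rfl
    (by omega) (fun μ ρ N hμ hρ hN hz Ω hΩ => by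
      have hN1 : 1 ≤ N := le_trans (Nat.mul_pos (by omega) hρ) hN
      obtain ⟨I, p, h1, h2, h3⟩ := hC _ (Φ x) (fun q a => hprim q _ (hΦ x a))
        (fun a => hint _ (hΦ x a)) μ _ hμ (box n ρ) (CountP.mem_box.2 fun i => by simp)
        (fun W h1 h2 h3 => by
          obtain ⟨ψ, h4, h5⟩ := hx W h1 h2 h3
          have hinj : Function.Injective ψ := (injective_iff_map_eq_zero ψ).2 fun a ha =>
            by_contra fun h => h5 a h fun w hw => by simpa [ha] using hw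
          refine ⟨(box _ ρ).image ψ, Finset.image_subset_iff.2 (h4 ρ), ?_, fun a ha a' ha' h => ?_⟩
          · rwa [Finset.card_image_of_injective _ hinj, CountP.card_box]
          · obtain ⟨a, -, rfl⟩ := Finset.mem_image.1 ha
            obtain ⟨a', -, rfl⟩ := Finset.mem_image.1 ha'
            rw [← map_sub]
            exact h5 _ (sub_ne_zero.2 fun e => h (by rw [e])))
        (fun τ hτ => hsm N hN1 _ (CountP.box_mono hN (sum_mem_box τ hτ))) Ω
        fun t ht => hsm N hN1 _ (neg_mem_box (hΩ ht))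
      refine ⟨I, p, fun i hi => ?_, h2, fun Q e hQ => (h3 Q e fun q hq => ?_).trans ?_⟩
      · obtain ⟨τ, hτ, e⟩ := h1 i hi
        exact e ▸ sum_mem_box τ hτ
      · simp only [Finset.mem_union]
        convert hQ q hq using 5
        rfl
      · have := Nat.mul_le_mul_left (C * (μ + 1) ^ (d + 2) * μ) (hL N hN1)
        refine this.trans (le_trans (le_of_eq (by ring)) (Nat.mul_le_mul_right _
          (Nat.mul_le_mul_right _ (Nat.mul_le_mul_right _ (Nat.mul_le_mul_right (C₃ + 1)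
            (Nat.le_add_right C C')))))))
    ((Φ x) ⁻¹' ZS c b) fun N hN a ha ha' Q hQ => by
      refine (hC' _ _ ha' (hsm N hN a ha) Q hQ).trans ?_
      rw [mul_assoc]
      exact Nat.mul_le_mul (Nat.le_add_left _ _) (hL N hN)
  refine ⟨E, A, S, hE.1, hS, dense_of (Nat.mul_pos (by omega) (by omega)) (Φ x) hx hZ hZ'
    fun Y hY hY' => ?_⟩
  obtain ⟨a, h1, h2⟩ := h Y hY hY'
  exact ⟨a, h1, fun h => ⟨h, hint _ (hΦ x a), fun q hq => ⟨hprim q _ (hΦ x a), h2 q hq⟩⟩⟩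

end Pool.Agent.P.MP_84b56d_ag.Z
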