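import Pool.Agent.P.MP_84b56d_ag.Z.Noeth
import Pool.Agent.P.MP_84b56d_ag.Height

/-! Multiplication operators on a finite module over a polynomial ring. -/

open MvPolynomial

namespace Pool.Agent.P.MP_84b56d_ag.Z

variable {k : Type*} [Field k] {σ : Type} {d : ℕ}

/-- matrices of the multiplication by a family of polynomials depending on a parameter -/
structure Op (k : Type*) [Field k] (σ : Type) (d : ℕ) where
  N : ℕ
  c0 : Fin N → MvPolynomial (Fin d) k
  M : σ → Fin N → Fin N → MvPolynomial (Fin d) (MvPolynomial σ k)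

/-- coordinates of a product -/
noncomputable def Op.vec (o : Op k σ d) (w : σ → k) : List σ → Fin o.N → MvPolynomial (Fin d) k
  | [] => o.c0
  | l :: L => fun j => ∑ a, o.vec w L a * map (eval w) (o.M l a j)

/-- the coefficients lie in `E` -/
def Op.Co (o : Op k σ d) (E : Set k) : Prop :=
  (∀ j m, coeff m (o.c0 j) ∈ E) ∧ ∀ l a j m m', coeff m' (coeff m (o.M l a j)) ∈ E

/-- `x` is a vector of simultaneous eigenvalues modulo `J` -/
def Op.Rel (o : Op k σ d) (O : Subring k) (J : AddSubgroup k) (w x : σ → k) : Prop :=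
  ∃ (y : Fin d → k) (s : Fin o.N → k), (∀ a, y a ∈ O) ∧ (∀ j, s j ∈ O) ∧
    1 - ∑ j, eval y (o.c0 j) * s j ∈ J ∧
    ∀ l a, x l * s a - ∑ j, eval y (map (eval w) (o.M l a j)) * s j ∈ J

theorem Op.Co.mono {o : Op k σ d} {E E' : Set k} (h : o.Co E) (hE : E ⊆ E') : o.Co E' :=
  ⟨fun j m => hE (h.1 j m), fun l a j m m' => hE (h.2 l a j m m')⟩

theorem Op.exists_co [Finite σ] (o : Op k σ d) : ∃ E : Set k, E.Finite ∧ o.Co E := by
  refine ⟨insert 0 ((⋃ j, Set.range fun m => coeff m (o.c0 j)) ∪ ⋃ l, ⋃ a, ⋃ j,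
    ⋃ m ∈ (o.M l a j).support, Set.range fun m' => coeff m' (coeff m (o.M l a j))),
    ((Set.finite_iUnion fun _ => finite_coeffs _).union (Set.finite_iUnion fun _ =>
      Set.finite_iUnion fun _ => Set.finite_iUnion fun _ =>
        (Finset.finite_toSet _).biUnion fun _ _ => finite_coeffs _)).insert 0,
    fun j m => Or.inr (Or.inl (Set.mem_iUnion.2 ⟨j, m, rfl⟩)), fun l a j m m' => ?_⟩
  by_cases h : m ∈ (o.M l a j).support
  · refine Or.inr (Or.inr ?_)
    simp only [Set.mem_iUnion]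
    exact ⟨l, a, j, m, h, m', rfl⟩
  · rw [notMem_support_iff.1 h]
    exact Or.inl rfl

theorem Op.cong (o : Op k σ d) {O : Subring k} {J : AddSubgroup k} (hL : Loc O J)
    (hE : o.Co O) {w x : σ → k} (hw : ∀ l, w l ∈ O) (hx : ∀ l, x l ∈ O) (h : o.Rel O J w x) :
    ∃ (y : Fin d → k) (s : Fin o.N → k),
      ∀ L : List σ, (L.map x).prod - ∑ j, eval y (o.vec w L j) * s j ∈ J := by
  obtain ⟨y, s, hy, hs, h1, h2⟩ := h
  refine ⟨y, s, fun L => ?_⟩
  have hM : ∀ l a j, eval y (map (eval w) (o.M l a j)) ∈ O := fun l a j =>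
    eval_mem (fun m => by rw [coeff_map]; exact eval_mem (hE.2 l a j m) hw) hy
  have hO : ∀ L j, eval y (o.vec w L j) ∈ O := by
    intro L
    induction L with
    | nil => exact fun j => eval_mem (hE.1 j) hy
    | cons l L ih =>
      intro j
      simp only [Op.vec, map_sum, map_mul]
      exact O.sum_mem fun a _ => O.mul_mem (ih a) (hM l a j)
  induction L with
  | nil => exact h1
  | cons l L ih =>
    have h3 := J.add_mem (hL.mul _ (hx l) _ ih)
      (J.sum_mem fun a (_ : a ∈ Finset.univ) => hL.mul _ (hO L a) _ (h2 l a))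
    convert h3 using 1
    simp only [Op.vec, map_sum, map_mul, List.map_cons, List.prod_cons, mul_sub, Finset.mul_sum,
      Finset.sum_mul, Finset.sum_sub_distrib]
    rw [Finset.sum_comm (f := fun j a => eval y (o.vec w L a) *
      eval y (map (eval w) (o.M l a j)) * s j)]
    simp only [mul_assoc, mul_left_comm (x l)]
    ring

theorem Op.deg [Finite σ] (o : Op k σ d) :
    ∃ D : ℕ, ∀ w L j, (o.vec w L j).totalDegree ≤ D * (L.length + 1) := by
  obtain ⟨D₁, h₁⟩ := (Set.finite_range fun j => (o.c0 j).totalDegree).bddAbove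
  obtain ⟨D₂, h₂⟩ := (Set.finite_range fun p : σ × Fin o.N × Fin o.N =>
    (o.M p.1 p.2.1 p.2.2).totalDegree).bddAbove
  refine ⟨D₁ + D₂, fun w L => ?_⟩
  induction L with
  | nil => exact fun j => (h₁ ⟨j, rfl⟩).trans (by simp)
  | cons l L ih =>
    intro j
    refine totalDegree_finsetSum_le fun a _ => (totalDegree_mul _ _).trans ?_
    have h3 : (map (eval w) (o.M l a j)).totalDegree ≤ D₂ :=
      (Finset.sup_mono (support_map_subset _ _)).trans (h₂ ⟨(l, a, j), rfl⟩)
    have := ih a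
    rw [List.length_cons]
    nlinarith

/-- exponent vectors with entries at most `T` -/
noncomputable def mon (d T : ℕ) : Finset (Fin d →₀ ℕ) :=
  (Fintype.piFinset fun _ => Finset.range (T + 1)).map Finsupp.equivFunOnFinite.symm.toEmbedding

theorem card_mon (d T : ℕ) : (mon d T).card = (T + 1) ^ d := by
  simp [mon]

theorem eval_eq_mon {p : MvPolynomial (Fin d) k} {T : ℕ} (h : p.totalDegree ≤ T) (y : Fin d → k) :
    eval y p = ∑ m ∈ mon d T, (∏ a, y a ^ m a) * coeff m p := by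
  rw [eval_eq']
  simp only [mul_comm (∏ a, y a ^ _)]
  refine Finset.sum_subset (fun m hm => ?_) fun m _ hm => by rw [notMem_support_iff.1 hm, zero_mul]
  refine Finset.mem_map.2 ⟨m, Fintype.mem_piFinset.2 fun a => Finset.mem_range.2 ?_, by simp⟩
  exact Nat.lt_succ_of_le
    ((monomial_le_degreeOf a hm).trans ((degreeOf_le_totalDegree p a).trans h))

/-- the condition vectors -/
def Op.cond (o : Op k σ d) (w : σ → k) {ι : Type*} (L : ι → List σ) (T : ℕ) : Set (ι → k) :=
  {u | ∃ j, ∃ m ∈ mon d T, u = fun n => coeff m (o.vec w (L n) j)}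

theorem Op.span (o : Op k σ d) {O : Subring k} {J : AddSubgroup k} (hL : Loc O J)
    (hE : o.Co O) {w x : σ → k} (hw : ∀ l, w l ∈ O) (hx : ∀ l, x l ∈ O) (h : o.Rel O J w x)
    {ι : Type*} (L : ι → List σ) {T : ℕ} (hT : ∀ n j, (o.vec w (L n) j).totalDegree ≤ T) :
    ∃ u ∈ Submodule.span k (o.cond w L T), ∀ n, ((L n).map x).prod - u n ∈ J := by
  obtain ⟨y, s, hs⟩ := o.cong hL hE hw hx h
  refine ⟨∑ j, ∑ m ∈ mon d T, ((∏ a, y a ^ m a) * s j) • fun n => coeff m (o.vec w (L n) j),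
    Submodule.sum_mem _ fun j _ => Submodule.sum_mem _ fun m hm =>
      Submodule.smul_mem _ _ (Submodule.subset_span ⟨j, m, hm, rfl⟩), fun n => ?_⟩
  convert hs (L n) using 2
  simp only [Finset.sum_apply, Pi.smul_apply, smul_eq_mul]
  refine Finset.sum_congr rfl fun j _ => ?_
  rw [eval_eq_mon (hT n j), Finset.sum_mul]
  exact Finset.sum_congr rfl fun m _ => by ring

open HeightAux

variable {E : Set k} (A : Arith k E)

theorem sm_hom (f : MvPolynomial σ k) (hf : ∀ m, coeff m f ∈ E) :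
    ∃ b : ℕ, ∀ D, f.totalDegree ≤ D → ∀ (L : ℕ) (w : σ → k) (a : k), (∀ i, A.Sm L (w i)) →
      A.Sm L a → a ≠ 0 → A.Sm (b + D * L) (A.h * a ^ D * eval (a⁻¹ • w) f) := by
  refine ⟨f.support.card + f.support.sup (fun m => A.sz (A.h * coeff m f)),
    fun D hD L w a hw ha h0 => ?_⟩
  rw [eval_eq, add_assoc, Finset.mul_sum]
  refine sm_sum _ _ _ _ Nat.lt_two_pow_self.le fun m hm => ?_
  have h1 : A.Sm (A.sz (A.h * coeff m f)) (A.h * coeff m f) :=
    ⟨A.clear _ (hf m), Nat.lt_two_pow_self.le⟩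
  have h2 : ∑ i ∈ m.support, m i ≤ D := (le_totalDegree hm).trans hD
  obtain ⟨e, rfl⟩ := Nat.exists_eq_add_of_le h2
  have := sm_mul h1 (sm_mul (A.sm_prod_pow m.support w m L fun i _ => hw i) (sm_pow ha e))
  have e1 : (A.h : k) * a ^ (∑ i ∈ m.support, m i + e) *
      (coeff m f * ∏ i ∈ m.support, (a⁻¹ • w) i ^ m i) =
      A.h * coeff m f * ((∏ i ∈ m.support, w i ^ m i) * a ^ e) := by
    simp only [Pi.smul_apply, smul_eq_mul, mul_pow, Finset.prod_mul_distrib,
      Finset.prod_pow_eq_pow_sum, pow_add]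
    rw [inv_pow]
    field_simp
  rw [e1]
  refine this.mono ?_
  rw [add_mul]
  exact Nat.add_le_add_right (Finset.le_sup (f := fun m => A.sz (A.h * coeff m f)) hm) _

theorem Op.size [Finite σ] (o : Op k σ d) (hE : o.Co E) :
    ∃ b D : ℕ, ∀ (S : ℕ) (w : σ → k) (a : k), (∀ i, A.Sm S (w i)) → A.Sm S a → a ≠ 0 →
      ∀ (L : List σ) j m, A.Sm ((L.length + 1) * (b + D * S))
        (A.h ^ (L.length + 1) * a ^ (D * L.length) * coeff m (o.vec (a⁻¹ • w) L j)) := by
  classical
  have := Fintype.ofFinite σ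
  let U : Finset (Fin d →₀ ℕ) := Finset.univ.biUnion fun p : σ × Fin o.N × Fin o.N =>
    (o.M p.1 p.2.1 p.2.2).support
  choose b hb using fun p : (σ × Fin o.N × Fin o.N) × U =>
    sm_hom A (coeff p.2.1 (o.M p.1.1 p.1.2.1 p.1.2.2)) (hE.2 _ _ _ _)
  obtain ⟨B, hB⟩ := (Set.finite_range b).bddAbove
  obtain ⟨D, hD⟩ := (Set.finite_range fun p : (σ × Fin o.N × Fin o.N) × U =>
    (coeff p.2.1 (o.M p.1.1 p.1.2.1 p.1.2.2)).totalDegree).bddAbove
  obtain ⟨B₀, hB₀⟩ := ((Set.finite_iUnion fun j => finite_coeffs (o.c0 j)).image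
    fun e => A.sz (A.h * e)).bddAbove
  refine ⟨B₀ + (o.N + (U.card + B)), D, fun S w a hw ha h0 L => ?_⟩
  induction L with
  | nil =>
    intro j m
    have h1 : A.sz (A.h * coeff m (o.c0 j)) ≤ B₀ := hB₀ ⟨_, Set.mem_iUnion.2 ⟨j, m, rfl⟩, rfl⟩
    have h2 : A.Sm B₀ (A.h * coeff m (o.c0 j)) :=
      ⟨A.clear _ (hE.1 j m), h1.trans Nat.lt_two_pow_self.le⟩
    simpa [Op.vec] using h2.mono (by omega)
  | cons l L ih =>
    intro j m
    have e : ∀ i, map (eval (a⁻¹ • w)) (o.M l i j) =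
        ∑ m' ∈ U, monomial m' (eval (a⁻¹ • w) (coeff m' (o.M l i j))) := by
      intro i
      conv_lhs => rw [(map (eval (a⁻¹ • w)) (o.M l i j)).as_sum]
      simp only [coeff_map]
      refine Finset.sum_subset (fun m' hm' => Finset.mem_biUnion.2
        ⟨(l, i, j), Finset.mem_univ _, support_map_subset _ _ hm'⟩) fun m' _ hm' => ?_
      rw [← coeff_map, notMem_support_iff.1 hm', map_zero]
    simp only [Op.vec, e, Finset.mul_sum, coeff_sum, coeff_mul_monomial']
    refine (sm_sum _ _ (U.card + ((L.length + 1) * (B₀ + (o.N + (U.card + B)) + D * S) +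
      (B + D * S))) o.N (by simpa using Nat.lt_two_pow_self.le) fun i _ =>
        sm_sum _ _ _ _ Nat.lt_two_pow_self.le fun m' hm' => ?_).mono
      (by rw [List.length_cons, Nat.succ_mul (L.length + 1)]; omega)
    split_ifs
    · have h1 := (hb ((l, i, j), ⟨m', hm'⟩) D (hD ⟨_, rfl⟩) S w a hw ha h0).mono
        (Nat.add_le_add_right (hB ⟨_, rfl⟩) _)
      have := sm_mul (ih i (m - m')) h1
      convert this using 1
      simp only [List.length_cons]
      ring
    · rw [mul_zero]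
      exact sm_zero _

end Pool.Agent.P.MP_84b56d_ag.Z
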